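import Mathlib

/-!
# Labels which occur an odd number of times: the function
-/

set_option autoImplicit false

namespace Pool.Agent.RO

open Finset

/-- the input bits: the data bits `x i` and the bits `a i j` of the labels (`n` items, labels of `k`
bits) -/
abbrev Item (n k : ℕ) : Type := Fin n ⊕ (Fin n × Fin k)

open Classical in
/-- some label occurs an odd number of times among the items whose data bit is `1` -/
def OddLabel {n k : ℕ} (z : Item n k → Bool) : Prop :=
  ∃ l : Fin k → Bool,
    (univ.filter fun i => z (.inl i) = true ∧ ∀ j, z (.inr (i, j)) = l j).card % 2 = 1

end Pool.Agent.RO
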