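import Mathlib
import Pool.Agent.Lib.MP_0a1b52_lc_RT.Defs
import Pool.Agent.Lib.MP_b573ec_lc_RO.Fun

/-!
# Circuits on any finite set of gates with a rank: definitions
-/

set_option autoImplicit false

namespace Pool.Agent.RO

open Finset Pool.Agent.FP

/-! ## Circuits on any finite set of gates with a rank -/

/-- a gate over a set `P` of gates -/
inductive PGate (V P : Type)
  | lit (v : V) (b : Bool)
  | and (i j : P)
  | or (i j : P)

/-- the wires of the gates come from gates of smaller rank -/
def Ranked {V P : Type} (gate : P → PGate V P) (rank : P → ℕ) : Prop :=
  ∀ g i j, (gate g = .and i j ∨ gate g = .or i j) → rank i < rank g ∧ rank j < rank g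

/-- `val` gives the values of the gates on the input `x` -/
def PEval {V P : Type} (gate : P → PGate V P) (x : V → Bool) (val : P → Bool) : Prop :=
  ∀ g, val g = match gate g with
    | .lit v b => x v == b
    | .and i j => val i && val j
    | .or i j => val i || val j

/-- formal refutation trees -/
inductive PTree {V P : Type} (gate : P → PGate V P) : P → List V → Prop
  | lit (g : P) (v : V) (b : Bool) : gate g = .lit v b → PTree gate g [v]
  | left (g i j : P) (L : List V) : gate g = .and i j → PTree gate i L → PTree gate g L
  | right (g i j : P) (L : List V) : gate g = .and i j → PTree gate j L → PTree gate g L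
  | both (g i j : P) (L L' : List V) : gate g = .or i j → PTree gate i L → PTree gate j L' →
      PTree gate g (L ++ L')

end Pool.Agent.RO
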