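import Mathlib
import Pool.Agent.Lib.MP_b573ec_lc_RO.Defs

/-!
# Labels which occur an odd number of times: circuits on any finite set of gates with a rank
-/

set_option autoImplicit false

namespace Pool.Agent.RO

open Finset Pool.Agent.FP Pool.Agent.RT

/-- an enumeration of the gates along which the rank does not decrease -/
private theorem Build_enum {P : Type} [Fintype P] (rank : P → ℕ) :
    ∃ e : P ≃ Fin (Fintype.card P), ∀ p q, rank p < rank q → e p < e q := by
  classical
  let f : Fin (Fintype.card P) → ℕ := fun i => rank ((Fintype.equivFin P).symm i)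
  have hm : Monotone (f ∘ Tuple.sort f) := Tuple.monotone_sort f
  refine ⟨(Fintype.equivFin P).trans (Tuple.sort f).symm, fun p q h => ?_⟩
  by_contra hc
  have h1 := hm (not_lt.1 hc)
  simp only [Function.comp_apply, f, Equiv.trans_apply, Equiv.apply_symm_apply,
    Equiv.symm_apply_apply] at h1
  omega

/-- the gate with its wires translated -/
private def Build_gate {V P : Type} {n : ℕ} (e : P ≃ Fin n) : PGate V P → Gate V n
  | .lit v b => .lit v b
  | .and i j => .and (e i) (e j)
  | .or i j => .or (e i) (e j)

/-- the circuit -/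
private def Build_circuit {V P : Type} {n : ℕ} (e : P ≃ Fin n) (gate : P → PGate V P)
    (rank : P → ℕ) (hr : Ranked gate rank) (he : ∀ p q, rank p < rank q → e p < e q) (out : P) :
    Circuit V n where
  gate i := Build_gate e (gate (e.symm i))
  and_lt := by
    intro g i j h
    rcases hg : gate (e.symm g) with ⟨v, b⟩ | ⟨i', j'⟩ | ⟨i', j'⟩ <;> rw [hg] at h <;>
      simp only [Build_gate, reduceCtorEq, Gate.and.injEq] at h
    obtain ⟨rfl, rfl⟩ := h
    have h1 := hr _ _ _ (.inl hg)
    have h2 := he _ _ h1.1
    have h3 := he _ _ h1.2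
    rw [Equiv.apply_symm_apply] at h2 h3
    exact ⟨h2, h3⟩
  or_lt := by
    intro g i j h
    rcases hg : gate (e.symm g) with ⟨v, b⟩ | ⟨i', j'⟩ | ⟨i', j'⟩ <;> rw [hg] at h <;>
      simp only [Build_gate, reduceCtorEq, Gate.or.injEq] at h
    obtain ⟨rfl, rfl⟩ := h
    have h1 := hr _ _ _ (.inr hg)
    have h2 := he _ _ h1.1
    have h3 := he _ _ h1.2
    rw [Equiv.apply_symm_apply] at h2 h3
    exact ⟨h2, h3⟩
  out := e out

private theorem Build_unique {V : Type} {s : ℕ} {D : Circuit V s} {x : V → Bool}
    {val val' : Fin s → Bool} (h : D.IsEval x val) (h' : D.IsEval x val') : val = val' := by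
  funext g
  induction g using WellFoundedLT.induction with
  | ind g ih =>
    rw [h g, h' g]
    rcases hg : D.gate g with ⟨v, b⟩ | ⟨i, j⟩ | ⟨i, j⟩
    · rfl
    · have h1 := D.and_lt g i j hg
      simp only [ih i h1.1, ih j h1.2]
    · have h1 := D.or_lt g i j hg
      simp only [ih i h1.1, ih j h1.2]

theorem build {V P : Type} [Fintype P] (gate : P → PGate V P) (rank : P → ℕ)
    (hr : Ranked gate rank) (out : P) :
    ∃ D : Circuit V (Fintype.card P),
      (∀ (x : V → Bool) (val : P → Bool), PEval gate x val → (D.Accepts x ↔ val out = true)) ∧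
      ∀ L, Tree D D.out L → PTree gate out L := by
  obtain ⟨e, he⟩ := Build_enum rank
  refine ⟨Build_circuit e gate rank hr he out, fun x val hval => ?_, fun L hL => ?_⟩
  · have hev : (Build_circuit e gate rank hr he out).IsEval x (fun i => val (e.symm i)) := by
      intro g
      have h1 := hval (e.symm g)
      have h2 : (Build_circuit e gate rank hr he out).gate g = Build_gate e (gate (e.symm g)) := rfl
      rw [h2]
      refine h1.trans ?_
      rcases hg : gate (e.symm g) with ⟨v, b⟩ | ⟨i', j'⟩ | ⟨i', j'⟩ <;> simp [Build_gate]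
    have hout : (Build_circuit e gate rank hr he out).out = e out := rfl
    constructor
    · rintro ⟨val', h1, h2⟩
      rw [Build_unique h1 hev, hout] at h2
      simpa using h2
    · intro h
      refine ⟨_, hev, ?_⟩
      rw [hout]
      simpa using h
  · have key : ∀ g L, Tree (Build_circuit e gate rank hr he out) g L →
        PTree gate (e.symm g) L := by
      intro g L h
      induction h with
      | lit g v b h1 =>
        have h2 : Build_gate e (gate (e.symm g)) = .lit v b := h1
        rcases hg : gate (e.symm g) with ⟨v', b'⟩ | ⟨i', j'⟩ | ⟨i', j'⟩ <;> rw [hg] at h2 <;>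
          simp only [Build_gate, reduceCtorEq, Gate.lit.injEq] at h2
        obtain ⟨rfl, rfl⟩ := h2
        exact .lit _ _ _ hg
      | left g i j L h1 _ ih =>
        have h2 : Build_gate e (gate (e.symm g)) = .and i j := h1
        rcases hg : gate (e.symm g) with ⟨v', b'⟩ | ⟨i', j'⟩ | ⟨i', j'⟩ <;> rw [hg] at h2 <;>
          simp only [Build_gate, reduceCtorEq, Gate.and.injEq] at h2
        obtain ⟨rfl, rfl⟩ := h2
        rw [Equiv.symm_apply_apply] at ih
        exact .left _ _ _ L hg ih
      | right g i j L h1 _ ih =>
        have h2 : Build_gate e (gate (e.symm g)) = .and i j := h1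
        rcases hg : gate (e.symm g) with ⟨v', b'⟩ | ⟨i', j'⟩ | ⟨i', j'⟩ <;> rw [hg] at h2 <;>
          simp only [Build_gate, reduceCtorEq, Gate.and.injEq] at h2
        obtain ⟨rfl, rfl⟩ := h2
        rw [Equiv.symm_apply_apply] at ih
        exact .right _ _ _ L hg ih
      | both g i j L L' h1 _ _ ih ih' =>
        have h2 : Build_gate e (gate (e.symm g)) = .or i j := h1
        rcases hg : gate (e.symm g) with ⟨v', b'⟩ | ⟨i', j'⟩ | ⟨i', j'⟩ <;> rw [hg] at h2 <;>
          simp only [Build_gate, reduceCtorEq, Gate.or.injEq] at h2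
        obtain ⟨rfl, rfl⟩ := h2
        rw [Equiv.symm_apply_apply] at ih ih'
        exact .both _ _ _ L L' hg ih ih'
    have h1 := key _ _ hL
    have hout : (Build_circuit e gate rank hr he out).out = e out := rfl
    rw [hout, Equiv.symm_apply_apply] at h1
    exact h1

end Pool.Agent.RO
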