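import Mathlib
import Pool.Agent.Lib.MP_b573ec_lc_RO.Build

/-!
# Labels which occur an odd number of times: oblivious programs as circuits
-/

set_option autoImplicit false

namespace Pool.Agent.RO

open Finset Pool.Agent.FP Pool.Agent.RT

/-- values of the gates, computed with fuel -/
private def Program_val {V P : Type} (gate : P → PGate V P) (x : V → Bool) : ℕ → P → Bool
  | 0, _ => false
  | n + 1, g => match gate g with
    | .lit v b => x v == b
    | .and i j => Program_val gate x n i && Program_val gate x n j
    | .or i j => Program_val gate x n i || Program_val gate x n j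

private theorem Program_val_stable {V P : Type} {gate : P → PGate V P} {rank : P → ℕ}
    (hr : Ranked gate rank) (x : V → Bool) (n : ℕ) :
    ∀ m g, rank g < n → rank g < m → Program_val gate x n g = Program_val gate x m g := by
  induction n with
  | zero => intro m g h; omega
  | succ n ih =>
    intro m g h h'
    obtain _ | m := m
    · omega
    rcases hg : gate g with ⟨v, b⟩ | ⟨i, j⟩ | ⟨i, j⟩ <;> simp only [Program_val, hg]
    · have h1 := hr _ _ _ (.inl hg)
      rw [ih m i (by omega) (by omega), ih m j (by omega) (by omega)]
    · have h1 := hr _ _ _ (.inr hg)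
      rw [ih m i (by omega) (by omega), ih m j (by omega) (by omega)]

private theorem Program_exists_eval {V P : Type} {gate : P → PGate V P} {rank : P → ℕ}
    (hr : Ranked gate rank) (x : V → Bool) : ∃ val, PEval gate x val := by
  refine ⟨fun g => Program_val gate x (rank g + 1) g, fun g => ?_⟩
  rcases hg : gate g with ⟨v, b⟩ | ⟨i, j⟩ | ⟨i, j⟩
  · simp [Program_val, hg]
  · have h1 := hr _ _ _ (.inl hg)
    have h2 : Program_val gate x (rank g + 1) g =
        (Program_val gate x (rank g) i && Program_val gate x (rank g) j) := by
      conv_lhs => rw [Program_val, hg]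
    change Program_val gate x (rank g + 1) g =
      (Program_val gate x (rank i + 1) i && Program_val gate x (rank j + 1) j)
    rw [h2, Program_val_stable hr x (rank g) (rank i + 1) i (by omega) (by omega),
      Program_val_stable hr x (rank g) (rank j + 1) j (by omega) (by omega)]
  · have h1 := hr _ _ _ (.inr hg)
    have h2 : Program_val gate x (rank g + 1) g =
        (Program_val gate x (rank g) i || Program_val gate x (rank g) j) := by
      conv_lhs => rw [Program_val, hg]
    change Program_val gate x (rank g + 1) g =
      (Program_val gate x (rank i + 1) i || Program_val gate x (rank j + 1) j)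
    rw [h2, Program_val_stable hr x (rank g) (rank i + 1) i (by omega) (by omega),
      Program_val_stable hr x (rank g) (rank j + 1) j (by omega) (by omega)]

/-- a bound for the number of readings from a potential -/
private theorem Program_bound {V P : Type} [DecidableEq V] {gate : P → PGate V P} (u : V)
    (β : P → ℕ) (hlit : ∀ g v b, gate g = .lit v b → (if v = u then 1 else 0) ≤ β g)
    (hand : ∀ g i j, gate g = .and i j → β i ≤ β g ∧ β j ≤ β g)
    (hor : ∀ g i j, gate g = .or i j → β i + β j ≤ β g) {g : P} {L : List V}
    (h : PTree gate g L) : (L.filter fun y => y = u).length ≤ β g := by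
  induction h with
  | lit g v b h1 =>
    have h2 := hlit g v b h1
    by_cases hv : v = u
    · simpa [hv] using h2
    · simp [hv]
  | left g i j L h1 _ ih => exact ih.trans (hand _ _ _ h1).1
  | right g i j L h1 _ ih => exact ih.trans (hand _ _ _ h1).2
  | both g i j L L' h1 _ _ ih ih' =>
    rw [List.filter_append, List.length_append]
    exact (Nat.add_le_add ih ih').trans (hor _ _ _ h1)

/-- the gates -/
private abbrev Program_P (S : Type) (T r : ℕ) : Type :=
  (Fin T × Bool) ⊕ (Fin r × Bool) ⊕ ((Fin r → Bool) × Fin (T + 1) × S × Option Bool) ⊕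
    ((Fin r → Bool) × Fin r) ⊕ Fin (2 ^ r)

section

variable {V S : Type} (T r : ℕ) (hr : 1 ≤ r) (v : ℕ → V)
  (step : (Fin r → Bool) → ℕ → S → Bool → S) (s₀ : S) (A : S → Bool)
  (num : Fin (2 ^ r) → (Fin r → Bool))

private def Program_lw {S : Type} {T r : ℕ} (j : Fin r) (b : Bool) : Program_P S T r :=
  .inr (.inl (j, b))

private def Program_nd {S : Type} {T r : ℕ} (α : Fin r → Bool) (t : Fin (T + 1)) (σ : S)
    (c : Option Bool) : Program_P S T r := .inr (.inr (.inl (α, t, σ, c)))

private def Program_cl {S : Type} {T r : ℕ} (α : Fin r → Bool) (j : Fin r) : Program_P S T r :=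
  .inr (.inr (.inr (.inl (α, j))))

private def Program_out {S : Type} {T r : ℕ} (i : Fin (2 ^ r)) : Program_P S T r :=
  .inr (.inr (.inr (.inr i)))

/-- the wires of the gates -/
private def Program_gate : Program_P S T r → PGate (V ⊕ Fin r) (Program_P S T r)
  | .inl (t, b) => .lit (.inl (v t)) b
  | .inr (.inl (j, b)) => .lit (.inr j) b
  | .inr (.inr (.inl (α, t, σ, none))) =>
      if (t : ℕ) < T then
        .and (Program_nd α t σ (some false)) (Program_nd α t σ (some true))
      else if A σ then .or (Program_lw ⟨0, hr⟩ true) (Program_lw ⟨0, hr⟩ false)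
      else .and (Program_lw ⟨0, hr⟩ true) (Program_lw ⟨0, hr⟩ false)
  | .inr (.inr (.inl (α, t, σ, some b))) =>
      if h : (t : ℕ) < T then
        .or (.inl (⟨t, h⟩, !b)) (Program_nd α ⟨t + 1, by omega⟩ (step α t σ b) none)
      else .lit (.inr ⟨0, hr⟩) true
  | .inr (.inr (.inr (.inl (α, j)))) =>
      .or (Program_lw j (!α j)) (if h : (j : ℕ) = 0 then Program_nd α 0 s₀ none else
        Program_cl α ⟨j - 1, by omega⟩)
  | .inr (.inr (.inr (.inr i))) =>
      .and (Program_cl (num i) ⟨r - 1, by omega⟩) (if h : (i : ℕ) = 0 then
        Program_cl (num i) ⟨r - 1, by omega⟩ else Program_out ⟨i - 1, by omega⟩)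

/-- the ranks of the gates -/
private def Program_rank : Program_P S T r → ℕ
  | .inl _ => 0
  | .inr (.inl _) => 0
  | .inr (.inr (.inl (_, t, _, none))) => 2 * (T - t) + 2
  | .inr (.inr (.inl (_, t, _, some _))) => 2 * (T - t) + 1
  | .inr (.inr (.inr (.inl (_, j)))) => 2 * T + 3 + j
  | .inr (.inr (.inr (.inr i))) => 2 * T + 3 + r + i

private theorem Program_ranked :
    Ranked (Program_gate T r hr v step s₀ A num) (Program_rank T r) := by
  intro g i j hg
  rcases g with ⟨t, b⟩ | ⟨j', b⟩ | ⟨α, t, σ, _ | b⟩ | ⟨α, j'⟩ | i'
  · simp [Program_gate] at hg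
  · simp [Program_gate] at hg
  · by_cases h1 : (t : ℕ) < T
    · simp only [Program_gate, h1, if_true, PGate.and.injEq, reduceCtorEq, or_false] at hg
      obtain ⟨rfl, rfl⟩ := hg
      simp only [Program_rank, Program_nd]
      omega
    · by_cases h2 : A σ = true
      · simp only [Program_gate, h1, if_false, h2, if_true, PGate.or.injEq, reduceCtorEq,
          false_or] at hg
        obtain ⟨rfl, rfl⟩ := hg
        simp [Program_rank, Program_lw]
      · simp only [Program_gate, h1, if_false, h2, PGate.and.injEq, reduceCtorEq,
          or_false, Bool.false_eq_true] at hg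
        obtain ⟨rfl, rfl⟩ := hg
        simp [Program_rank, Program_lw]
  · by_cases h1 : (t : ℕ) < T
    · simp only [Program_gate, h1, dif_pos, PGate.or.injEq, reduceCtorEq, false_or] at hg
      obtain ⟨rfl, rfl⟩ := hg
      simp only [Program_rank, Program_nd]
      omega
    · simp [Program_gate, h1] at hg
  · simp only [Program_gate, PGate.or.injEq, reduceCtorEq, false_or] at hg
    obtain ⟨rfl, rfl⟩ := hg
    refine ⟨by simp only [Program_rank, Program_lw]; omega, ?_⟩
    by_cases h1 : (j' : ℕ) = 0
    · simp only [h1, dif_pos, Program_rank, Program_nd, Fin.val_zero]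
      omega
    · simp only [h1, dif_neg, not_false_eq_true, Program_rank, Program_cl]
      omega
  · simp only [Program_gate, PGate.and.injEq, reduceCtorEq, or_false] at hg
    obtain ⟨rfl, rfl⟩ := hg
    refine ⟨by simp only [Program_rank, Program_cl]; omega, ?_⟩
    by_cases h1 : (i' : ℕ) = 0
    · simp only [h1, dif_pos, Program_rank, Program_cl]
      omega
    · simp only [h1, dif_neg, not_false_eq_true, Program_rank, Program_out]
      omega

end

private theorem Program_range {V : Type} [DecidableEq V] (v : ℕ → V) (u : V) (T : ℕ) :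
    ((List.range T).filter fun t => v t = u).length =
      ∑ t ∈ Finset.Ico 0 T, if v t = u then 1 else 0 := by
  rw [← Finset.range_eq_Ico]
  induction T with
  | zero => simp
  | succ T ih =>
    rw [List.range_succ, List.filter_append, List.length_append, Finset.sum_range_succ, ih]
    by_cases h : v T = u <;> simp [h]

/-- A family of oblivious programs (with the same sequence `v` of variables; the program number `w`
is given by the bits `Sum.inr`) as one circuit whose refutation trees read each input variable not
more often than the sequence `v`. -/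
theorem program {V S : Type} [Fintype S] [DecidableEq V] (T r : ℕ) (hr : 1 ≤ r) (v : ℕ → V)
    (step : (Fin r → Bool) → ℕ → S → Bool → S) (s₀ : S) (A : S → Bool)
    (run : (Fin r → Bool) → (V → Bool) → ℕ → S) (hrun0 : ∀ w x, run w x 0 = s₀)
    (hrun : ∀ w x t, run w x (t + 1) = step w t (run w x t) (x (v t))) :
    ∃ (s : ℕ) (D : Circuit (V ⊕ Fin r) s), s ≤ 2 ^ r * (8 * (T + 1) * Fintype.card S + 8 * r + 8) ∧
      (∀ (x : V → Bool) (w : Fin r → Bool),
        D.Accepts (Sum.elim x w) ↔ A (run w x T) = true) ∧
      ∀ L, Tree D D.out L → ∀ u : V, (L.filter fun y => y = Sum.inl u).length ≤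
        ((List.range T).filter fun t => v t = u).length := by
  classical
  have hc : Fintype.card (Fin r → Bool) = 2 ^ r := by simp
  obtain ⟨e⟩ : Nonempty (Fin (2 ^ r) ≃ (Fin r → Bool)) :=
    ⟨((Fintype.equivFin (Fin r → Bool)).trans (finCongr hc)).symm⟩
  have hpos : 0 < 2 ^ r := by positivity
  let top : Fin (2 ^ r) := ⟨2 ^ r - 1, by omega⟩
  obtain ⟨D, hD, hT⟩ := build (Program_gate T r hr v step s₀ A e) (Program_rank T r)
    (Program_ranked T r hr v step s₀ A e) (Program_out top)
  refine ⟨_, D, ?_, fun x w => ?_, fun L hL u => ?_⟩
  · have hS : 0 < Fintype.card S := Fintype.card_pos_iff.2 ⟨s₀⟩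
    simp only [Fintype.card_sum, Fintype.card_prod, Fintype.card_fin, Fintype.card_bool,
      Fintype.card_option, hc]
    have h1 : 1 ≤ 2 ^ r := hpos
    generalize 2 ^ r = q at h1
    generalize Fintype.card S = c at hS
    have h2 : T * 2 ≤ q * ((T + 1) * c * 2) := by
      have h3 : T * 2 ≤ (T + 1) * c * 2 := by nlinarith
      calc T * 2 ≤ 1 * ((T + 1) * c * 2) := by rw [one_mul]; exact h3
        _ ≤ _ := Nat.mul_le_mul_right _ h1
    have h4 : r * 2 ≤ q * (r * 2) := Nat.le_mul_of_pos_left _ h1
    nlinarith
  · obtain ⟨val, hval⟩ := Program_exists_eval (Program_ranked T r hr v step s₀ A e) (Sum.elim x w)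
    rw [hD _ val hval]
    have hlw : ∀ j b, val (Program_lw j b) = (w j == b) := fun j b => hval (Program_lw j b)
    have hlt : ∀ t b, val (.inl (t, b)) = (x (v t) == b) := fun t b => hval (.inl (t, b))
    -- the nodes of the programs
    have hnd : ∀ d t : ℕ, ∀ ht : t < T + 1, d = T - t → ∀ α : Fin r → Bool, ∀ y : ℕ → S,
        (∀ i, y (i + 1) = step α i (y i) (x (v i))) →
        val (Program_nd α ⟨t, ht⟩ (y t) none) = A (y T) := by
      intro d
      induction d with
      | zero =>
        intro t ht hd α y hy
        obtain rfl : t = T := by omega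
        have h1 := hval (Program_nd α ⟨t, ht⟩ (y t) none)
        by_cases h2 : A (y t) = true
        · rw [h2]
          simp only [Program_gate, Program_nd, lt_irrefl, if_false, h2, if_true] at h1
          rw [Program_nd, h1, hlw, hlw]
          cases w ⟨0, hr⟩ <;> rfl
        · simp only [Program_gate, Program_nd, lt_irrefl, if_false, h2] at h1
          rw [Bool.not_eq_true] at h2
          rw [h2, Program_nd, h1]
          simp only [Bool.false_eq_true, if_false]
          rw [hlw, hlw]
          cases w ⟨0, hr⟩ <;> rfl
      | succ d ih =>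
        intro t ht hd α y hy
        have htT : t < T := by omega
        have h1 := hval (Program_nd α ⟨t, ht⟩ (y t) none)
        simp only [Program_gate, Program_nd, htT, if_true] at h1
        have h2 : ∀ b, val (Program_nd α ⟨t, ht⟩ (y t) (some b)) =
            ((x (v t) == !b) || val (Program_nd α ⟨t + 1, by omega⟩ (step α t (y t) b) none)) := by
          intro b
          have h3 := hval (Program_nd α ⟨t, ht⟩ (y t) (some b))
          simp only [Program_gate, Program_nd, htT, dif_pos] at h3
          rw [hlt] at h3
          exact h3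
        have h4 := ih (t + 1) (by omega) (by omega) α y hy
        rw [hy t] at h4
        rw [Program_nd, h1]
        change (val (Program_nd α ⟨t, ht⟩ (y t) (some false)) &&
          val (Program_nd α ⟨t, ht⟩ (y t) (some true))) = _
        rw [h2, h2]
        cases hb : x (v t) <;> rw [hb] at h4 <;> simp [h4]
    -- the clauses
    have hcl : ∀ α : Fin r → Bool, ∀ j : ℕ, ∀ hj : j < r, val (Program_cl α ⟨j, hj⟩) = true ↔
        (∃ i : Fin r, (i : ℕ) ≤ j ∧ w i ≠ α i) ∨ val (Program_nd α 0 s₀ none) = true := by
      intro α j
      induction j with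
      | zero =>
        intro hj
        have h1 := hval (Program_cl α ⟨0, hj⟩)
        simp only [Program_gate, Program_cl, dif_pos] at h1
        rw [Program_cl, h1, Bool.or_eq_true, hlw]
        refine or_congr_left ?_
        rw [beq_iff_eq]
        constructor
        · intro h
          exact ⟨⟨0, hj⟩, le_rfl, by rw [h]; cases α ⟨0, hj⟩ <;> decide⟩
        · rintro ⟨i, hi, h⟩
          obtain rfl : i = ⟨0, hj⟩ := Fin.ext (by simpa using hi)
          revert h
          cases w ⟨0, hj⟩ <;> cases α ⟨0, hj⟩ <;> decide
      | succ j ih =>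
        intro hj
        have h1 := hval (Program_cl α ⟨j + 1, hj⟩)
        simp only [Program_gate, Program_cl, Nat.add_eq_zero_iff, one_ne_zero, and_false,
          dif_neg, not_false_eq_true, Nat.add_sub_cancel] at h1
        have h2 := ih (by omega)
        rw [Program_cl] at h2
        rw [Program_cl, h1, Bool.or_eq_true, hlw, h2, ← or_assoc]
        refine or_congr_left ?_
        rw [beq_iff_eq]
        constructor
        · rintro (h | ⟨i, hi, h⟩)
          · exact ⟨⟨j + 1, hj⟩, le_rfl, by rw [h]; cases α ⟨j + 1, hj⟩ <;> decide⟩
          · exact ⟨i, by omega, h⟩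
        · rintro ⟨i, hi, h⟩
          rcases Nat.lt_or_ge (i : ℕ) (j + 1) with h3 | h3
          · exact .inr ⟨i, by omega, h⟩
          · obtain rfl : i = ⟨j + 1, hj⟩ := Fin.ext (by simp; omega)
            left
            revert h
            cases w ⟨j + 1, hj⟩ <;> cases α ⟨j + 1, hj⟩ <;> decide
    -- the output
    have hout : ∀ i : ℕ, ∀ hi : i < 2 ^ r, val (Program_out ⟨i, hi⟩) = true ↔
        ∀ i' : Fin (2 ^ r), (i' : ℕ) ≤ i → val (Program_cl (e i') ⟨r - 1, by omega⟩) = true := by
      intro i
      induction i with
      | zero =>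
        intro hi
        have h1 := hval (Program_out ⟨0, hi⟩)
        simp only [Program_gate, Program_out, dif_pos] at h1
        rw [Program_out, h1, Bool.and_self]
        constructor
        · intro h i' hi'
          obtain rfl : i' = ⟨0, hi⟩ := Fin.ext (by simpa using hi')
          exact h
        · intro h
          exact h _ le_rfl
      | succ i ih =>
        intro hi
        have h1 := hval (Program_out ⟨i + 1, hi⟩)
        simp only [Program_gate, Program_out, Nat.add_eq_zero_iff, one_ne_zero, and_false,
          dif_neg, not_false_eq_true, Nat.add_sub_cancel] at h1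
        have h2 := ih (by omega)
        rw [Program_out] at h2
        rw [Program_out, h1, Bool.and_eq_true, h2]
        constructor
        · rintro ⟨h3, h4⟩ i' hi'
          rcases Nat.lt_or_ge (i' : ℕ) (i + 1) with h5 | h5
          · exact h4 i' (by omega)
          · obtain rfl : i' = ⟨i + 1, hi⟩ := Fin.ext (by simp; omega)
            exact h3
        · intro h
          exact ⟨h _ le_rfl, fun i' hi' => h i' (by omega)⟩
    have hA : ∀ α : Fin r → Bool, α = w → val (Program_nd α 0 s₀ none) = A (run w x T) := by
      rintro α rfl
      have h1 := hnd (T - 0) 0 (by omega) rfl α (run α x) (hrun α x)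
      rw [hrun0] at h1
      exact h1
    rw [hout _ top.2]
    constructor
    · intro h
      have h1 := h (e.symm w) (by have := (e.symm w).2; simp only [top]; omega)
      rw [hcl, Equiv.apply_symm_apply, hA w rfl] at h1
      rcases h1 with ⟨i, -, h2⟩ | h1
      · exact absurd rfl h2
      · exact h1
    · intro h i' _
      rw [hcl]
      by_cases h1 : e i' = w
      · right
        rw [hA _ h1]
        exact h
      · left
        obtain ⟨i, hi⟩ := Function.ne_iff.1 h1
        exact ⟨i, by omega, fun h2 => hi h2.symm⟩
  · rw [Program_range]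
    let c : ℕ → ℕ := fun t => ∑ t' ∈ Finset.Ico t T, if v t' = u then 1 else 0
    let β : Program_P S T r → ℕ := fun g => match g with
      | .inl (t, _) => if v t = u then 1 else 0
      | .inr (.inl _) => 0
      | .inr (.inr (.inl (_, t, _, _))) => c t
      | .inr (.inr (.inr (.inl _))) => c 0
      | .inr (.inr (.inr (.inr _))) => c 0
    refine Program_bound (Sum.inl u) β ?_ ?_ ?_ (hT L hL)
    · intro g y b hg
      rcases g with ⟨t, b'⟩ | ⟨j', b'⟩ | ⟨α, t, σ, _ | b'⟩ | ⟨α, j'⟩ | i'
      · simp only [Program_gate, PGate.lit.injEq] at hg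
        obtain ⟨rfl, rfl⟩ := hg
        simp [β]
      · simp only [Program_gate, PGate.lit.injEq] at hg
        obtain ⟨rfl, rfl⟩ := hg
        simp
      · by_cases h1 : (t : ℕ) < T
        · simp [Program_gate, h1] at hg
        · by_cases h2 : A σ = true <;> simp [Program_gate, h1, h2] at hg
      · by_cases h1 : (t : ℕ) < T
        · simp [Program_gate, h1] at hg
        · simp only [Program_gate, h1, dif_neg, not_false_eq_true, PGate.lit.injEq] at hg
          obtain ⟨rfl, rfl⟩ := hg
          simp
      · simp [Program_gate] at hg
      · simp [Program_gate] at hg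
    · intro g i j hg
      rcases g with ⟨t, b'⟩ | ⟨j', b'⟩ | ⟨α, t, σ, _ | b'⟩ | ⟨α, j'⟩ | i'
      · simp [Program_gate] at hg
      · simp [Program_gate] at hg
      · by_cases h1 : (t : ℕ) < T
        · simp only [Program_gate, h1, if_true, PGate.and.injEq] at hg
          obtain ⟨rfl, rfl⟩ := hg
          simp [β, Program_nd]
        · by_cases h2 : A σ = true
          · simp [Program_gate, h1, h2] at hg
          · simp only [Program_gate, h1, if_false, h2, PGate.and.injEq,
              Bool.false_eq_true] at hg
            obtain ⟨rfl, rfl⟩ := hg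
            simp [β, Program_lw]
      · by_cases h1 : (t : ℕ) < T <;> simp [Program_gate, h1] at hg
      · simp [Program_gate] at hg
      · simp only [Program_gate, PGate.and.injEq] at hg
        obtain ⟨rfl, rfl⟩ := hg
        refine ⟨by simp [β, Program_cl], ?_⟩
        by_cases h1 : (i' : ℕ) = 0
        · simp [h1, β, Program_cl]
        · simp [h1, β, Program_out]
    · intro g i j hg
      rcases g with ⟨t, b'⟩ | ⟨j', b'⟩ | ⟨α, t, σ, _ | b'⟩ | ⟨α, j'⟩ | i'
      · simp [Program_gate] at hg
      · simp [Program_gate] at hg
      · by_cases h1 : (t : ℕ) < T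
        · simp [Program_gate, h1] at hg
        · by_cases h2 : A σ = true
          · simp only [Program_gate, h1, if_false, h2, if_true, PGate.or.injEq] at hg
            obtain ⟨rfl, rfl⟩ := hg
            simp [β, Program_lw]
          · simp [Program_gate, h1, h2] at hg
      · by_cases h1 : (t : ℕ) < T
        · simp only [Program_gate, h1, dif_pos, PGate.or.injEq] at hg
          obtain ⟨rfl, rfl⟩ := hg
          simp only [β, Program_nd, c]
          rw [Finset.sum_eq_sum_Ico_succ_bot h1]
        · simp [Program_gate, h1] at hg
      · simp only [Program_gate, PGate.or.injEq] at hg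
        obtain ⟨rfl, rfl⟩ := hg
        by_cases h1 : (j' : ℕ) = 0
        · simp [h1, β, Program_nd, Program_lw]
        · simp [h1, β, Program_cl, Program_lw]
      · simp [Program_gate] at hg

end Pool.Agent.RO
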