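import Mathlib
import Pool.Agent.Lib.MP_b573ec_lc_RO.Build

/-!
# The disjunction over all assignments of some variables
-/

set_option autoImplicit false

namespace Pool.Agent.RO

open Finset Pool.Agent.FP Pool.Agent.RT

private def Ex_ev {V : Type} {s : ℕ} (D : Circuit V s) (x : V → Bool) (g : Fin s) : Bool :=
  match _h : D.gate g with
  | .lit v b => x v == b
  | .and i j => Ex_ev D x i && Ex_ev D x j
  | .or i j => Ex_ev D x i || Ex_ev D x j
termination_by g
decreasing_by
  · exact (D.and_lt g i j _h).1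
  · exact (D.and_lt g i j _h).2
  · exact (D.or_lt g i j _h).1
  · exact (D.or_lt g i j _h).2

private theorem Ex_isEval {V : Type} {s : ℕ} (D : Circuit V s) (x : V → Bool) :
    D.IsEval x (Ex_ev D x) := by
  intro g
  rw [Ex_ev]
  split
  · rename_i v b h
    rw [h]
  · rename_i i j h
    rw [h]
  · rename_i i j h
    rw [h]

private theorem Ex_unique {V : Type} {s : ℕ} {D : Circuit V s} {x : V → Bool}
    {val val' : Fin s → Bool} (h : D.IsEval x val) (h' : D.IsEval x val') : val = val' := by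
  funext g
  induction g using WellFoundedLT.induction with
  | ind g ih =>
    rw [h g, h' g]
    rcases hg : D.gate g with ⟨v, b⟩ | ⟨i, j⟩ | ⟨i, j⟩
    · rfl
    · have h1 := D.and_lt g i j hg
      simp only [ih i h1.1, ih j h1.2]
    · have h1 := D.or_lt g i j hg
      simp only [ih i h1.1, ih j h1.2]

private theorem Ex_accepts {V : Type} {s : ℕ} (D : Circuit V s) (x : V → Bool) :
    D.Accepts x ↔ Ex_ev D x D.out = true := by
  constructor
  · rintro ⟨val, h1, h2⟩
    rw [Ex_unique (Ex_isEval D x) h1]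
    exact h2
  · intro h
    exact ⟨_, Ex_isEval D x, h⟩

/-- the gates -/
private abbrev Ex_P (r s : ℕ) : Type := ((Fin r → Bool) × Fin s) ⊕ (Fin (2 ^ r) ⊕ Fin 4)

private noncomputable def Ex_enum (r : ℕ) : Fin (2 ^ r) ≃ (Fin r → Bool) :=
  (Fintype.equivFinOfCardEq (by simp)).symm

private noncomputable def Ex_gate {V : Type} {r s : ℕ} (D : Circuit (V ⊕ Fin r) s) (u : V) :
    Ex_P r s → PGate V (Ex_P r s)
  | .inl (w, g) => match D.gate g with
    | .lit (.inl v) b => .lit v b
    | .lit (.inr j) b => .or (.inr (.inr (if w j == b then 2 else 3)))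
        (.inr (.inr (if w j == b then 2 else 3)))
    | .and i j => .and (.inl (w, i)) (.inl (w, j))
    | .or i j => .or (.inl (w, i)) (.inl (w, j))
  | .inr (.inl t) => if (t : ℕ) = 0 then
      .or (.inl (Ex_enum r t, D.out)) (.inl (Ex_enum r t, D.out))
    else .or (.inr (.inl ⟨(t : ℕ) - 1, lt_of_le_of_lt (Nat.sub_le _ _) t.2⟩))
      (.inl (Ex_enum r t, D.out))
  | .inr (.inr c) => if c = 0 then .lit u true else if c = 1 then .lit u false else
      if c = 2 then .or (.inr (.inr 0)) (.inr (.inr 1)) else .and (.inr (.inr 0)) (.inr (.inr 1))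

private def Ex_rank {r s : ℕ} : Ex_P r s → ℕ
  | .inl (_, g) => 2 + g
  | .inr (.inl t) => 2 + s + t
  | .inr (.inr c) => if c = 0 ∨ c = 1 then 0 else 1

private theorem Ex_ranked {V : Type} {r s : ℕ} (D : Circuit (V ⊕ Fin r) s) (u : V) :
    Ranked (Ex_gate D u) Ex_rank := by
  rintro (⟨w, g⟩ | (t | c)) i j h
  · unfold Ex_gate at h
    dsimp only at h
    rcases hg : D.gate g with ⟨(v | k), b⟩ | ⟨i', j'⟩ | ⟨i', j'⟩ <;> rw [hg] at h <;>
      simp only [reduceCtorEq, PGate.and.injEq, PGate.or.injEq, false_or, or_false] at h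
    · obtain ⟨rfl, rfl⟩ := h
      simp only [Ex_rank]
      split_ifs <;> omega
    · obtain ⟨rfl, rfl⟩ := h
      have h1 := D.and_lt g _ _ hg
      simp only [Ex_rank, Fin.lt_def] at h1 ⊢
      omega
    · obtain ⟨rfl, rfl⟩ := h
      have h1 := D.or_lt g _ _ hg
      simp only [Ex_rank, Fin.lt_def] at h1 ⊢
      omega
  · unfold Ex_gate at h
    dsimp only at h
    have h1 := D.out.2
    split_ifs at h with h0 <;>
      simp only [PGate.or.injEq, false_or] at h <;> obtain ⟨rfl, rfl⟩ := h <;>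
      simp only [Ex_rank] <;> omega
  · unfold Ex_gate at h
    dsimp only at h
    fin_cases c <;> simp at h <;> obtain ⟨rfl, rfl⟩ := h <;> simp [Ex_rank]

private noncomputable def Ex_val {V : Type} {r s : ℕ} (D : Circuit (V ⊕ Fin r) s) (u : V)
    (x : V → Bool) : Ex_P r s → Bool
  | .inl (w, g) => Ex_ev D (Sum.elim x w) g
  | .inr (.inl t) => decide (∃ t' : Fin (2 ^ r), t' ≤ t ∧
      Ex_ev D (Sum.elim x (Ex_enum r t')) D.out = true)
  | .inr (.inr c) => if c = 0 then x u else if c = 1 then !x u else decide (c = 2)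

private theorem Ex_eval {V : Type} {r s : ℕ} (D : Circuit (V ⊕ Fin r) s) (u : V)
    (x : V → Bool) : PEval (Ex_gate D u) x (Ex_val D u x) := by
  rintro (⟨w, g⟩ | (t | c))
  · have h := Ex_isEval D (Sum.elim x w) g
    unfold Ex_gate
    dsimp only
    rw [show Ex_val D u x (.inl (w, g)) = Ex_ev D (Sum.elim x w) g from rfl, h]
    rcases hg : D.gate g with ⟨(v | k), b⟩ | ⟨i', j'⟩ | ⟨i', j'⟩
    · rfl
    · simp only [Sum.elim_inr, Ex_val]
      cases hb : (w k == b) <;> simp
    · rfl
    · rfl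
  · unfold Ex_gate
    dsimp only
    rw [show Ex_val D u x (.inr (.inl t)) = decide (∃ t' : Fin (2 ^ r), t' ≤ t ∧
      Ex_ev D (Sum.elim x (Ex_enum r t')) D.out = true) from rfl]
    split_ifs with h0
    · dsimp only
      rw [show Ex_val D u x (.inl (Ex_enum r t, D.out)) =
        Ex_ev D (Sum.elim x (Ex_enum r t)) D.out from rfl, Bool.or_self, Bool.eq_iff_iff,
        decide_eq_true_iff]
      constructor
      · rintro ⟨t', h1, h2⟩
        have h3 : t' = t := Fin.ext (by
          have h4 : (t' : ℕ) ≤ t := h1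
          omega)
        rw [← h3]
        exact h2
      · intro h
        exact ⟨t, le_rfl, h⟩
    · dsimp only
      rw [show Ex_val D u x (.inl (Ex_enum r t, D.out)) =
        Ex_ev D (Sum.elim x (Ex_enum r t)) D.out from rfl, Bool.eq_iff_iff,
        decide_eq_true_iff, Bool.or_eq_true,
        show Ex_val D u x (.inr (.inl ⟨(t : ℕ) - 1, lt_of_le_of_lt (Nat.sub_le _ _) t.2⟩)) =
          decide (∃ t' : Fin (2 ^ r), t' ≤ ⟨(t : ℕ) - 1, lt_of_le_of_lt (Nat.sub_le _ _) t.2⟩ ∧
          Ex_ev D (Sum.elim x (Ex_enum r t')) D.out = true) from rfl, decide_eq_true_iff]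
      constructor
      · rintro ⟨t', h1, h2⟩
        rcases eq_or_lt_of_le h1 with h3 | h3
        · right
          rw [← h3]
          exact h2
        · left
          refine ⟨t', ?_, h2⟩
          rw [Fin.le_def]
          rw [Fin.lt_def] at h3
          dsimp only
          omega
      · rintro (⟨t', h1, h2⟩ | h)
        · refine ⟨t', ?_, h2⟩
          rw [Fin.le_def] at h1 ⊢
          dsimp only at h1
          omega
        · exact ⟨t, le_rfl, h⟩
  · unfold Ex_gate Ex_val
    fin_cases c <;> simp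

/-- The disjunction over all assignments `w` of the last `r` variables. -/
theorem exists_circuit {V : Type} {r s : ℕ} (D : Circuit (V ⊕ Fin r) s) (u : V) :
    ∃ (s' : ℕ) (D' : Circuit V s'), s' ≤ 2 ^ r * (s + 5) ∧
      ∀ x : V → Bool, D'.Accepts x ↔ ∃ w : Fin r → Bool, D.Accepts (Sum.elim x w) := by
  have hr : 0 < 2 ^ r := Nat.two_pow_pos r
  obtain ⟨D', h1, -⟩ := build (Ex_gate D u) Ex_rank (Ex_ranked D u)
    (.inr (.inl ⟨2 ^ r - 1, Nat.sub_lt hr one_pos⟩))
  refine ⟨_, D', ?_, fun x => ?_⟩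
  · simp only [Fintype.card_sum, Fintype.card_prod, Fintype.card_fun, Fintype.card_bool,
      Fintype.card_fin]
    nlinarith
  · rw [h1 x _ (Ex_eval D u x), show Ex_val D u x (.inr (.inl ⟨2 ^ r - 1,
      Nat.sub_lt hr one_pos⟩)) = decide (∃ t' : Fin (2 ^ r), t' ≤ ⟨2 ^ r - 1,
      Nat.sub_lt hr one_pos⟩ ∧ Ex_ev D (Sum.elim x (Ex_enum r t')) D.out = true) from rfl,
      decide_eq_true_iff]
    constructor
    · rintro ⟨t, -, h2⟩
      exact ⟨_, (Ex_accepts D _).2 h2⟩
    · rintro ⟨w, h2⟩
      refine ⟨(Ex_enum r).symm w, ?_, ?_⟩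
      · rw [Fin.le_def]
        have h3 := ((Ex_enum r).symm w).2
        dsimp only
        omega
      · rw [Equiv.apply_symm_apply]
        exact (Ex_accepts D _).1 h2

end Pool.Agent.RO
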