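import Mathlib
import Pool.Agent.Lib.MP_b573ec_lc_RO.Defs
import Pool.Agent.Lib.MP_0a1b52_lc_RS.Uniq
import Pool.Agent.Lib.MP_0a1b52_lc_RS.Fool
import Pool.Agent.Lib.MP_0a1b52_lc_RK.Defs

/-!
# Labels which occur an odd number of times: hard inputs for a given set of data bits
-/

set_option autoImplicit false

namespace Pool.Agent.RO

open Finset Pool.Agent.FP

variable {n k m G : ℕ}

open Classical in
/-- the input with the pairs of items `i` of `Λ`: the two items of the pair `i` have the label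
`lab i` and the data bits `Y 0 i`, `Y 1 i` -/
noncomputable def inp (ed : Fin 2 → Fin m → Fin n) (lab : Fin G → Fin k → Bool)
    (Λ : Finset (Fin G)) (q : Fin G → Fin 2 → Fin m) (Y : Fin 2 → Fin G → Bool) :
    Item n k → Bool
  | .inl v => decide (∃ i ∈ Λ, ∃ t, ed t (q i t) = v ∧ Y t i = true)
  | .inr (v, j) => decide (∃ i ∈ Λ, ∃ t, ed t (q i t) = v ∧ lab i j = true)

section

variable {ed : Fin 2 → Fin m → Fin n} {lab : Fin G → Fin k → Bool} {Λ : Finset (Fin G)}
  {q : Fin G → Fin 2 → Fin m}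

private theorem rel_uni (hed : ∀ t t' x x', ed t x = ed t' x' → t = t' ∧ x = x')
    (hq : ∀ t, ∀ i ∈ Λ, ∀ i' ∈ Λ, q i t = q i' t → i = i') {i i' : Fin G} (hi : i ∈ Λ)
    (hi' : i' ∈ Λ) {t t' : Fin 2} (h : ed t (q i t) = ed t' (q i' t')) : t = t' ∧ i = i' := by
  obtain ⟨h1, h2⟩ := hed _ _ _ _ h
  subst h1
  exact ⟨rfl, hq t i hi i' hi' h2⟩

private theorem rel_dat (hed : ∀ t t' x x', ed t x = ed t' x' → t = t' ∧ x = x')
    (hq : ∀ t, ∀ i ∈ Λ, ∀ i' ∈ Λ, q i t = q i' t → i = i') (Y : Fin 2 → Fin G → Bool)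
    {i : Fin G} (hi : i ∈ Λ) (t : Fin 2) :
    inp ed lab Λ q Y (.inl (ed t (q i t))) = Y t i := by
  rw [Bool.eq_iff_iff]
  simp only [inp, decide_eq_true_eq]
  constructor
  · rintro ⟨i', hi', t', h1, h2⟩
    obtain ⟨rfl, rfl⟩ := rel_uni hed hq hi' hi h1
    exact h2
  · intro h
    exact ⟨i, hi, t, rfl, h⟩

private theorem rel_lab (hed : ∀ t t' x x', ed t x = ed t' x' → t = t' ∧ x = x')
    (hq : ∀ t, ∀ i ∈ Λ, ∀ i' ∈ Λ, q i t = q i' t → i = i') (Y : Fin 2 → Fin G → Bool)
    {i : Fin G} (hi : i ∈ Λ) (t : Fin 2) (j : Fin k) :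
    inp ed lab Λ q Y (.inr (ed t (q i t), j)) = lab i j := by
  rw [Bool.eq_iff_iff]
  simp only [inp, decide_eq_true_eq]
  constructor
  · rintro ⟨i', hi', t', h1, h2⟩
    obtain ⟨rfl, rfl⟩ := rel_uni hed hq hi' hi h1
    exact h2
  · intro h
    exact ⟨i, hi, t, rfl, h⟩

open Classical in
/-- the items with data bit `1` and a given label -/
private theorem rel_set (hed : ∀ t t' x x', ed t x = ed t' x' → t = t' ∧ x = x')
    (hq : ∀ t, ∀ i ∈ Λ, ∀ i' ∈ Λ, q i t = q i' t → i = i')
    (hlab : Function.Injective lab) (Y : Fin 2 → Fin G → Bool) (l : Fin k → Bool) :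
    (univ.filter fun v : Fin n => inp ed lab Λ q Y (.inl v) = true ∧
      ∀ j, inp ed lab Λ q Y (.inr (v, j)) = l j) =
    (((Λ.filter fun i => lab i = l) ×ˢ (univ : Finset (Fin 2))).filter
      (fun p : Fin G × Fin 2 => Y p.2 p.1 = true)).image
      fun p : Fin G × Fin 2 => ed p.2 (q p.1 p.2) := by
  ext v
  simp only [mem_filter, mem_univ, true_and, mem_image, mem_product, and_true, Prod.exists]
  constructor
  · rintro ⟨h1, h2⟩
    have h1' : ∃ i ∈ Λ, ∃ t, ed t (q i t) = v ∧ Y t i = true := by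
      simpa only [inp, decide_eq_true_eq] using h1
    obtain ⟨i, hi, t, rfl, h3⟩ := h1'
    refine ⟨i, t, ⟨⟨hi, ?_⟩, h3⟩, rfl⟩
    funext j
    rw [← h2 j, rel_lab hed hq Y hi t j]
  · rintro ⟨i, t, ⟨⟨hi, hl⟩, h3⟩, rfl⟩
    refine ⟨?_, fun j => ?_⟩
    · rw [rel_dat hed hq Y hi t, h3]
    · rw [rel_lab hed hq Y hi t j, hl]

open Classical in
private theorem rel_card (hed : ∀ t t' x x', ed t x = ed t' x' → t = t' ∧ x = x')
    (hq : ∀ t, ∀ i ∈ Λ, ∀ i' ∈ Λ, q i t = q i' t → i = i')
    (hlab : Function.Injective lab) (Y : Fin 2 → Fin G → Bool) (l : Fin k → Bool) :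
    (univ.filter fun v : Fin n => inp ed lab Λ q Y (.inl v) = true ∧
      ∀ j, inp ed lab Λ q Y (.inr (v, j)) = l j).card =
    ∑ i ∈ Λ.filter (fun i => lab i = l),
      ((if Y 0 i = true then 1 else 0) + if Y 1 i = true then 1 else 0) := by
  rw [rel_set hed hq hlab Y l, card_image_of_injOn, card_filter, sum_product]
  · refine sum_congr rfl fun i _ => ?_
    rw [Fin.sum_univ_two]
  · intro p hp p' hp' h
    simp only [coe_filter, mem_product, mem_filter, mem_univ, and_true, Set.mem_setOf_eq] at hp hp'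
    obtain ⟨h1, h2⟩ := rel_uni hed hq hp.1.1 hp'.1.1 h
    exact Prod.ext h2 h1

theorem odd_iff (hed : ∀ t t' x x', ed t x = ed t' x' → t = t' ∧ x = x')
    (hq : ∀ t, ∀ i ∈ Λ, ∀ i' ∈ Λ, q i t = q i' t → i = i')
    (hlab : Function.Injective lab) (Y : Fin 2 → Fin G → Bool) :
    OddLabel (inp ed lab Λ q Y) ↔ ∃ i ∈ Λ, Y 0 i ≠ Y 1 i := by
  classical
  constructor
  · rintro ⟨l, hl⟩
    by_contra hc
    push Not at hc
    have h1 := rel_card hed hq hlab Y l
    have h2 : (∑ i ∈ Λ.filter (fun i => lab i = l),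
      ((if Y 0 i = true then 1 else 0) + if Y 1 i = true then 1 else 0)) % 2 = 0 := by
      rw [← Nat.dvd_iff_mod_eq_zero]
      refine dvd_sum fun i hi => ?_
      rw [hc i (mem_filter.1 hi).1]
      split_ifs
      · exact ⟨1, rfl⟩
      · exact ⟨0, rfl⟩
    have h3 : (univ.filter fun v : Fin n => inp ed lab Λ q Y (.inl v) = true ∧
      ∀ j, inp ed lab Λ q Y (.inr (v, j)) = l j).card % 2 = 1 := by
      convert hl
    omega
  · rintro ⟨i, hi, h⟩
    refine ⟨lab i, ?_⟩
    have h1 := rel_card hed hq hlab Y (lab i)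
    have h2 : Λ.filter (fun i' => lab i' = lab i) = {i} := by
      ext i'
      simp only [mem_filter, mem_singleton]
      constructor
      · exact fun h => hlab h.2
      · rintro rfl
        exact ⟨hi, rfl⟩
    rw [h2, sum_singleton] at h1
    have h3 : ((if Y 0 i = true then 1 else 0) + if Y 1 i = true then 1 else 0) = 1 := by
      cases h0 : Y 0 i <;> cases h1 : Y 1 i <;> simp_all
    rw [h3] at h1
    have h4 : (univ.filter fun v : Fin n => inp ed lab Λ q Y (.inl v) = true ∧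
      ∀ j, inp ed lab Λ q Y (.inr (v, j)) = lab i j).card % 2 = 1 := by
      rw [h1]
    convert h4

theorem inp_indep (Y Y' : Fin 2 → Fin G → Bool) (v : Item n k)
    (h : inp ed lab Λ q Y v ≠ inp ed lab Λ q Y' v) :
    ∃ t, ∃ i ∈ Λ, Y t i ≠ Y' t i ∧ v = .inl (ed t (q i t)) := by
  by_contra hc
  push Not at hc
  apply h
  rcases v with v | ⟨v, j⟩
  · rw [Bool.eq_iff_iff]
    simp only [inp, decide_eq_true_eq]
    have key : ∀ i ∈ Λ, ∀ t, ed t (q i t) = v → Y t i = Y' t i := by
      intro i hi t ht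
      by_contra hne
      exact hc t i hi hne (by rw [ht])
    constructor
    · rintro ⟨i, hi, t, h1, h2⟩
      exact ⟨i, hi, t, h1, by rw [← key i hi t h1]; exact h2⟩
    · rintro ⟨i, hi, t, h1, h2⟩
      exact ⟨i, hi, t, h1, by rw [key i hi t h1]; exact h2⟩
  · rfl

open Classical in
theorem fool_odd (hed : ∀ t t' x x', ed t x = ed t' x' → t = t' ∧ x = x')
    (hq : ∀ t, ∀ i ∈ Λ, ∀ i' ∈ Λ, q i t = q i' t → i = i')
    (hlab : Function.Injective lab) (X : Fin 2 → Finset (Item n k)) (Γ : Finset (Fin G))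
    (hΓ : Γ ⊆ Λ) (hX : ∀ i ∈ Γ, ∀ t, (.inl (ed t (q i t)) : Item n k) ∈ X t)
    (T : (Item n k → Bool) → Prop) (hT : Pool.Agent.RK.StarK X T)
    (hTc : ∀ x, T x → ¬ OddLabel x) :
    (univ.filter fun x : Fin G → Bool => T (inp ed lab Λ q fun _ => x)).card * 2 ^ Γ.card ≤
      2 ^ G := by
  refine Pool.Agent.RS.fool_count Γ _ ?_
  intro x hx y hy hxy
  rw [mem_filter] at hx hy
  set Y : Fin 2 → Fin G → Bool := fun t i => if t = 0 then x i else y i with hY
  have hTu : T (inp ed lab Λ q Y) := by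
    refine hT _ (fun k => if k = 0 then inp ed lab Λ q (fun _ => y)
      else inp ed lab Λ q (fun _ => x)) ?_ ?_
    · intro k e he
      by_contra hne
      fin_cases k
      · simp only [Fin.zero_eta, if_true] at hne he
        obtain ⟨t, j, hj, h1, h2⟩ := inp_indep _ _ e hne
        fin_cases t
        · refine he ?_
          have hjΓ : j ∈ Γ := by
            by_contra hc
            refine h1 ?_
            simp [hY, hxy j hc]
          rw [h2]
          exact hX j hjΓ 0
        · exact h1 (by simp [hY])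
      · simp only [Fin.mk_one, Fin.isValue, one_ne_zero, if_false] at hne he
        obtain ⟨t, j, hj, h1, h2⟩ := inp_indep _ _ e hne
        fin_cases t
        · exact h1 (by simp [hY])
        · refine he ?_
          have hjΓ : j ∈ Γ := by
            by_contra hc
            refine h1 ?_
            simp [hY, hxy j hc]
          rw [h2]
          exact hX j hjΓ 1
    · intro k
      fin_cases k
      · simpa using hy.2
      · simpa using hx.2
  have h1 := hTc _ hTu
  rw [odd_iff hed hq hlab] at h1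
  push Not at h1
  funext i
  by_cases hi : i ∈ Γ
  · have := h1 i (hΓ hi)
    simpa [hY] using this
  · exact hxy i hi

end

end Pool.Agent.RO
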