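import Mathlib
import Pool.Agent.Lib.MP_b573ec_lc_RO.Rel
import Pool.Agent.Lib.MP_0a1b52_lc_RT.RandA
import Pool.Agent.Lib.MP_b573ec_lc_RA.MainG

/-!
# Labels which occur an odd number of times: the lower bound
-/

set_option autoImplicit false

namespace Pool.Agent.RO

open Finset Pool.Agent.FP Pool.Agent.RK Pool.Agent.RT

open Classical in
private theorem lower_one {n k m G : ℕ} {ed : Fin 2 → Fin m → Fin n} {lab : Fin G → Fin k → Bool}
    (hed : ∀ t t' x x', ed t x = ed t' x' → t = t' ∧ x = x') (hlab : Function.Injective lab)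
    {Φ : Type} [Fintype Φ] (Λ : Φ → Finset (Fin G)) (q : Φ → Fin G → Fin 2 → Fin m)
    (hq : ∀ φ t, ∀ i ∈ Λ φ, ∀ i' ∈ Λ φ, q φ i t = q φ i' t → i = i') (g β : ℝ)
    (X : Fin 2 → Finset (Item n k)) (T : (Item n k → Bool) → Prop)
    (hT : StarK X T) (hTc : ∀ x, T x → ¬ OddLabel x)
    (hφ : ((univ.filter fun φ : Φ => (((Λ φ).filter fun i =>
      ∀ t, (.inl (ed t (q φ i t)) : Item n k) ∈ X t).card : ℝ) < g).card : ℝ) ≤
        Fintype.card Φ * β) :
    ((univ.filter fun j : Φ × (Fin G → Bool) =>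
      T (inp ed lab (Λ j.1) (q j.1) fun _ => j.2)).card : ℝ) ≤
      Fintype.card Φ * 2 ^ G * ((2 : ℝ) ^ (-g) + β) := by
  set B : Finset Φ := univ.filter fun φ : Φ => (((Λ φ).filter fun i =>
      ∀ t, (.inl (ed t (q φ i t)) : Item n k) ∈ X t).card : ℝ) < g with hB
  have h1 : ((univ.filter fun j : Φ × (Fin G → Bool) =>
      T (inp ed lab (Λ j.1) (q j.1) fun _ => j.2)).card : ℝ) =
      ∑ φ : Φ, ((univ.filter fun x : Fin G → Bool =>
        T (inp ed lab (Λ φ) (q φ) fun _ => x)).card : ℝ) := by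
    rw [card_filter]
    push_cast
    rw [Fintype.sum_prod_type]
    refine sum_congr rfl fun φ _ => ?_
    rw [card_filter]
    push_cast
    rfl
  rw [h1]
  have h2 : ∀ φ : Φ, ((univ.filter fun x : Fin G → Bool =>
        T (inp ed lab (Λ φ) (q φ) fun _ => x)).card : ℝ) ≤
      (2 : ℝ) ^ G * (2 : ℝ) ^ (-g) + if φ ∈ B then (2 : ℝ) ^ G else 0 := by
    intro φ
    split_ifs with hφB
    · have h3 : (univ.filter fun x : Fin G → Bool =>
        T (inp ed lab (Λ φ) (q φ) fun _ => x)).card ≤ 2 ^ G := by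
        refine (card_le_univ _).trans (le_of_eq ?_)
        simp
      have h4 : ((univ.filter fun x : Fin G → Bool =>
        T (inp ed lab (Λ φ) (q φ) fun _ => x)).card : ℝ) ≤ (2 : ℝ) ^ G := by exact_mod_cast h3
      have h5 : (0 : ℝ) ≤ (2 : ℝ) ^ G * (2 : ℝ) ^ (-g) := by positivity
      linarith
    · rw [add_zero]
      have h3 := fool_odd hed (hq φ) hlab X
        ((Λ φ).filter fun i => ∀ t, (.inl (ed t (q φ i t)) : Item n k) ∈ X t) (filter_subset _ _)
        (fun i hi => (mem_filter.1 hi).2) T hT hTc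
      have h4 : g ≤ (((Λ φ).filter fun i =>
          ∀ t, (.inl (ed t (q φ i t)) : Item n k) ∈ X t).card : ℝ) := by
        by_contra hc
        push Not at hc
        exact hφB (by simp only [hB, mem_filter, mem_univ, true_and]; exact hc)
      have h5 : ((univ.filter fun x : Fin G → Bool =>
        T (inp ed lab (Λ φ) (q φ) fun _ => x)).card : ℝ) *
          (2 : ℝ) ^ ((Λ φ).filter fun i =>
            ∀ t, (.inl (ed t (q φ i t)) : Item n k) ∈ X t).card ≤ (2 : ℝ) ^ G := by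
        exact_mod_cast h3
      rw [Real.rpow_neg (by norm_num), ← div_eq_mul_inv, le_div_iff₀ (by positivity)]
      refine le_trans (mul_le_mul_of_nonneg_left ?_ (Nat.cast_nonneg _)) h5
      rw [← Real.rpow_natCast (2 : ℝ) (Finset.card _)]
      exact Real.rpow_le_rpow_of_exponent_le (by norm_num) h4
  refine (sum_le_sum fun φ _ => h2 φ).trans ?_
  rw [sum_add_distrib, sum_const, card_univ, nsmul_eq_mul, ← sum_filter, sum_const, nsmul_eq_mul]
  have h6 : (univ.filter fun φ => φ ∈ B) = B := by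
    ext φ
    simp
  rw [h6]
  have h7 : (0 : ℝ) < (2 : ℝ) ^ G := by positivity
  have h8 := mul_le_mul_of_nonneg_right hφ h7.le
  nlinarith

private theorem lower_ev (κ : ℝ) (hκ : 0 < κ) (C : ℝ) :
    ∀ᶠ n : ℕ in Filter.atTop, C ≤ (n : ℝ) ^ κ :=
  ((tendsto_rpow_atTop hκ).comp tendsto_natCast_atTop_atTop).eventually_ge_atTop C

/-- two disjoint lists in a set -/
private theorem lower_halves {n : ℕ} (E : Finset (Fin n)) (m : ℕ) (hm : 2 * m ≤ E.card) :
    ∃ ed : Fin 2 → Fin m → Fin n, (∀ t x, ed t x ∈ E) ∧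
      ∀ t t' x x', ed t x = ed t' x' → t = t' ∧ x = x' := by
  have h1 : Fintype.card (Fin 2 × Fin m) ≤ Fintype.card {v // v ∈ E} := by
    rw [Fintype.card_prod, Fintype.card_fin, Fintype.card_fin, Fintype.card_coe]
    exact hm
  obtain ⟨f⟩ := Function.Embedding.nonempty_of_card_le h1
  refine ⟨fun t x => (f (t, x)).1, fun t x => (f (t, x)).2, fun t t' x x' h => ?_⟩
  have h2 := f.injective (Subtype.ext h)
  exact ⟨(Prod.mk.inj h2).1, (Prod.mk.inj h2).2⟩

open Classical in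
/-- hard inputs for a given set of data bits -/
theorem rel_odd (γ ε : ℝ) (hγ : 0 ≤ γ) (hε : 0 < ε) : ∃ δ : ℝ, 0 < δ ∧ ∃ n₀ : ℕ, ∀ n ≥ n₀,
    ∀ E : Finset (Fin n), (n : ℝ) ^ (γ + ε) ≤ E.card →
      ∃ E₁ E₂ : Finset (Fin n), E₁ ⊆ E ∧ E₂ ⊆ E ∧ Disjoint E₁ E₂ ∧ E₁.card = E₂.card ∧
        (n : ℝ) ^ (ε / 2) ≤ E₁.card ∧
        ∃ (N : ℕ) (Q : Fin N → Item n (Nat.clog 2 n) → Bool), 0 < N ∧ (∀ i, ¬ OddLabel (Q i)) ∧
          ∀ X : Fin 2 → Finset (Item n (Nat.clog 2 n)), (n : ℝ) ^ (-δ) * (E₁.card : ℝ) ^ 2 ≤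
            ((E₁.filter fun v => (.inl v : Item n (Nat.clog 2 n)) ∈ X 0).card : ℝ) *
              (E₂.filter fun v => (.inl v : Item n (Nat.clog 2 n)) ∈ X 1).card →
          ∀ T : (Item n (Nat.clog 2 n) → Bool) → Prop, StarK X T → (∀ x, T x → ¬ OddLabel x) →
            ((univ.filter fun i => T (Q i)).card : ℝ) ≤
              N * (2 : ℝ) ^ (-((n : ℝ) ^ (γ + ε / 2))) := by
  set η := min ε 1 / 8 with hη
  have hη0 : 0 < η := by
    have : 0 < min ε 1 := lt_min hε one_pos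
    positivity
  have hη1 : η ≤ 1 / 8 := by
    have := min_le_right ε 1
    linarith
  have hηε : η ≤ ε / 8 := by
    have := min_le_left ε 1
    linarith
  have hev : ∀ᶠ n : ℕ in Filter.atTop, 1 ≤ n ∧ (48000 : ℝ) ≤ (n : ℝ) ^ (ε / 4) ∧
      (2000 : ℝ) ≤ (n : ℝ) ^ (ε / 2) ∧ (32 : ℝ) ≤ (n : ℝ) ^ (η / 2) := by
    filter_upwards [Filter.eventually_ge_atTop 1, lower_ev (ε / 4) (by positivity) 48000,
      lower_ev (ε / 2) (by positivity) 2000, lower_ev (η / 2) (by positivity) 32] with n k1 k2 k3 k4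
    exact ⟨k1, k2, k3, k4⟩
  obtain ⟨n₀, hn₀⟩ := Filter.eventually_atTop.1 hev
  refine ⟨η / 4, by positivity, n₀, fun n hn E hE => ?_⟩
  obtain ⟨k1, k5, k6, k7⟩ := hn₀ n hn
  have hn1 : (1 : ℝ) ≤ n := by exact_mod_cast k1
  have hn0 : (0 : ℝ) < n := by linarith
  have hE2000 : (2000 : ℝ) ≤ E.card := by
    have h1 : (n : ℝ) ^ (ε / 2) ≤ (n : ℝ) ^ (γ + ε) :=
      Real.rpow_le_rpow_of_exponent_le hn1 (by linarith)
    linarith
  obtain ⟨m, hm⟩ : ∃ m, m = E.card / 2 := ⟨_, rfl⟩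
  have hm2 : 2 * m ≤ E.card := by omega
  have hmE : E.card ≤ 2 * m + 1 := by omega
  have hmER : (E.card : ℝ) ≤ 2 * m + 1 := by exact_mod_cast hmE
  have hm3 : (E.card : ℝ) ≤ 3 * m := by linarith
  have hm1 : 1 ≤ m := by
    have : (1 : ℝ) ≤ m := by linarith
    exact_mod_cast this
  have hm0 : (0 : ℝ) < m := by exact_mod_cast hm1
  obtain ⟨ed, hedE, hed⟩ := lower_halves E m hm2
  have hmn : m ≤ n := by
    have := E.card_le_univ
    rw [Fintype.card_fin] at this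
    omega
  -- the number of pairs
  obtain ⟨G, hGdef⟩ : ∃ G : ℕ, G = ⌊(m : ℝ) * (n : ℝ) ^ (-η)⌋₊ := ⟨_, rfl⟩
  have hmη : (0 : ℝ) ≤ (m : ℝ) * (n : ℝ) ^ (-η) := by positivity
  have hG : (G : ℝ) ≤ m * (n : ℝ) ^ (-η) := by
    rw [hGdef]
    exact Nat.floor_le hmη
  have hmE' : (n : ℝ) ^ (γ + ε) / 3 ≤ m := by
    rw [div_le_iff₀ (by norm_num)]
    linarith
  have hmη2 : (n : ℝ) ^ (γ + ε - η) / 3 ≤ m * (n : ℝ) ^ (-η) := by
    have h1 : (n : ℝ) ^ (γ + ε - η) = (n : ℝ) ^ (γ + ε) * (n : ℝ) ^ (-η) := by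
      rw [← Real.rpow_add hn0]
      congr 1
    rw [h1, mul_div_right_comm]
    exact mul_le_mul_of_nonneg_right hmE' (by positivity)
  have hbig : (2 : ℝ) ≤ (n : ℝ) ^ (γ + ε - η) / 3 := by
    rw [le_div_iff₀ (by norm_num)]
    have h1 : (n : ℝ) ^ (ε / 2) ≤ (n : ℝ) ^ (γ + ε - η) :=
      Real.rpow_le_rpow_of_exponent_le hn1 (by linarith)
    linarith
  have hG2 : (n : ℝ) ^ (γ + ε - η) / 6 ≤ G := by
    have h1 : m * (n : ℝ) ^ (-η) < G + 1 := by
      rw [hGdef]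
      exact Nat.lt_floor_add_one _
    linarith
  have hG1 : 1 ≤ G := by
    have h1 : (1 : ℝ) ≤ G := by linarith
    exact_mod_cast h1
  have hGpos : (0 : ℝ) < G := by exact_mod_cast hG1
  have hη' : (n : ℝ) ^ (-η) ≤ 1 := Real.rpow_le_one_of_one_le_of_nonpos hn1 (by linarith)
  have hGm : G ≤ m := by
    have h1 : (G : ℝ) ≤ m := by nlinarith
    exact_mod_cast h1
  -- the labels
  have hlabc : Fintype.card (Fin G) ≤ Fintype.card (Fin (Nat.clog 2 n) → Bool) := by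
    rw [Fintype.card_fin, Fintype.card_fun, Fintype.card_bool, Fintype.card_fin]
    exact (hGm.trans hmn).trans (Nat.le_pow_clog (by norm_num) n)
  obtain ⟨lab⟩ := Function.Embedding.nonempty_of_card_le hlabc
  obtain ⟨Φ, hΦ, Λ, q, hΦ0, hq, hgood⟩ := randA m G hm1 (G * (2 * (n : ℝ) ^ (-η)))
    (by positivity) (by
      rw [div_le_iff₀ hm0]
      nlinarith)
  have hinj : ∀ t, Function.Injective (ed t) := fun t x x' h => (hed t t x x' h).2
  have hcard : ∀ t, (univ.image (ed t)).card = m := by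
    intro t
    rw [card_image_of_injective _ (hinj t), card_univ, Fintype.card_fin]
  refine ⟨univ.image (ed 0), univ.image (ed 1), ?_, ?_, ?_, ?_, ?_, ?_⟩
  · intro e he
    obtain ⟨x, -, rfl⟩ := mem_image.1 he
    exact hedE 0 x
  · intro e he
    obtain ⟨x, -, rfl⟩ := mem_image.1 he
    exact hedE 1 x
  · rw [disjoint_left]
    intro e he he'
    obtain ⟨x, -, rfl⟩ := mem_image.1 he
    obtain ⟨y, -, hy⟩ := mem_image.1 he'
    exact absurd (hed _ _ _ _ hy).1 (by decide)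
  · rw [hcard, hcard]
  · rw [hcard]
    have h1 : (n : ℝ) ^ (ε / 2) * (n : ℝ) ^ (ε / 2) ≤ (n : ℝ) ^ (γ + ε) := by
      rw [← Real.rpow_add hn0]
      exact Real.rpow_le_rpow_of_exponent_le hn1 (by linarith)
    nlinarith
  obtain ⟨M, hM⟩ : ∃ M, M = Fintype.card (Φ × (Fin G → Bool)) := ⟨_, rfl⟩
  have hMR : (M : ℝ) = Fintype.card Φ * 2 ^ G := by
    rw [hM, Fintype.card_prod, Fintype.card_fun, Fintype.card_bool, Fintype.card_fin]
    push_cast
    ring
  let e : Fin M ≃ Φ × (Fin G → Bool) := (Fintype.equivFinOfCardEq hM.symm).symm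
  refine ⟨M, fun i => inp ed lab (Λ (e i).1) (q (e i).1) fun _ => (e i).2, ?_, ?_, ?_⟩
  · rw [hM, Fintype.card_prod]
    exact Nat.mul_pos hΦ0 Fintype.card_pos
  · intro i hi
    obtain ⟨j, -, hj⟩ := (odd_iff hed (hq (e i).1) lab.injective _).1 hi
    exact hj rfl
  intro X hX T hT hTc
  rw [hcard] at hX
  have hcount : ((univ.filter fun i => T (inp ed lab (Λ (e i).1) (q (e i).1)
      fun _ => (e i).2)).card : ℝ) = ((univ.filter fun j : Φ × (Fin G → Bool) =>
      T (inp ed lab (Λ j.1) (q j.1) fun _ => j.2)).card : ℝ) := by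
    congr 1
    refine card_bij (fun i _ => e i) ?_ ?_ ?_
    · intro i hi
      exact mem_filter.2 ⟨mem_univ _, (mem_filter.1 hi).2⟩
    · intro i _ j _ hij
      exact e.injective hij
    · intro j hj
      refine ⟨e.symm j, mem_filter.2 ⟨mem_univ _, ?_⟩, e.apply_symm_apply j⟩
      simpa using (mem_filter.1 hj).2
  rw [hcount]
  obtain ⟨ρ, hρdef⟩ : ∃ ρ : ℝ, ρ = (n : ℝ) ^ (-(η / 4)) := ⟨_, rfl⟩
  rw [← hρdef] at hX
  have hρ0 : 0 < ρ := by
    rw [hρdef]
    positivity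
  have hρ1 : ρ ≤ 1 := by
    rw [hρdef]
    exact Real.rpow_le_one_of_one_le_of_nonpos hn1 (by linarith)
  have hcardX : ∀ t, ((univ.filter fun x : Fin m =>
      (.inl (ed t x) : Item n (Nat.clog 2 n)) ∈ X t).card) =
      ((univ.image (ed t)).filter fun v => (.inl v : Item n (Nat.clog 2 n)) ∈ X t).card := by
    intro t
    rw [← card_image_of_injective _ (hinj t)]
    congr 1
    ext v
    simp only [mem_image, mem_filter, mem_univ, true_and]
    constructor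
    · rintro ⟨x, hx, rfl⟩
      exact ⟨⟨x, rfl⟩, hx⟩
    · rintro ⟨⟨x, rfl⟩, hx⟩
      exact ⟨x, hx, rfl⟩
  have hg := hgood (fun t => univ.filter fun x : Fin m =>
    (.inl (ed t x) : Item n (Nat.clog 2 n)) ∈ X t) ρ hρ0.le hρ1 (by
      rw [hcardX 0, hcardX 1]
      exact hX)
  have hg2 : ρ * G / 8 ≤ ρ * G / 4 - 2 * (G * (2 * (n : ℝ) ^ (-η))) := by
    have h1 : (n : ℝ) ^ (-η) * 32 ≤ ρ := by
      have h2 : (n : ℝ) ^ (-η) * (n : ℝ) ^ (η / 2) ≤ ρ := by
        rw [hρdef, ← Real.rpow_add hn0]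
        exact Real.rpow_le_rpow_of_exponent_le hn1 (by linarith)
      have h3 : (0 : ℝ) < (n : ℝ) ^ (-η) := by positivity
      nlinarith
    nlinarith
  have hone := lower_one hed lab.injective Λ q hq (ρ * G / 8) (2 * (2 : ℝ) ^ (-(ρ * G / 8)))
    X T hT hTc (by
      refine le_trans ?_ (hg.trans ?_)
      · have hsub : (univ.filter fun φ : Φ => (((Λ φ).filter fun i =>
            ∀ t, (.inl (ed t (q φ i t)) : Item n (Nat.clog 2 n)) ∈ X t).card : ℝ) <
              ρ * G / 8) ⊆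
            univ.filter fun φ : Φ => (((Λ φ).filter fun i => ∀ t, q φ i t ∈
              univ.filter fun x : Fin m =>
                (.inl (ed t x) : Item n (Nat.clog 2 n)) ∈ X t).card : ℝ) <
                ρ * G / 4 - 2 * (G * (2 * (n : ℝ) ^ (-η))) := by
          intro φ hφ
          rw [mem_filter] at hφ ⊢
          refine ⟨mem_univ _, lt_of_lt_of_le ?_ hg2⟩
          have : ((Λ φ).filter fun i => ∀ t, q φ i t ∈
              univ.filter fun x : Fin m => (.inl (ed t x) : Item n (Nat.clog 2 n)) ∈ X t) =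
              (Λ φ).filter fun i =>
                ∀ t, (.inl (ed t (q φ i t)) : Item n (Nat.clog 2 n)) ∈ X t := by
            ext i
            simp
          rw [this]
          exact hφ.2
        exact_mod_cast card_le_card hsub
      · refine mul_le_mul_of_nonneg_left ?_ (Nat.cast_nonneg _)
        refine mul_le_mul_of_nonneg_left ?_ (by norm_num)
        refine Real.rpow_le_rpow_of_exponent_le (by norm_num) ?_
        have : 0 ≤ ρ * G := by positivity
        linarith)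
  rw [← hMR] at hone
  refine hone.trans (mul_le_mul_of_nonneg_left ?_ (Nat.cast_nonneg _))
  have hfin : (n : ℝ) ^ (γ + ε / 2) + 2 ≤ ρ * G / 8 := by
    have h1 : (n : ℝ) ^ (γ + ε / 2) * (n : ℝ) ^ (ε / 4) ≤ ρ * (n : ℝ) ^ (γ + ε - η) := by
      rw [hρdef, ← Real.rpow_add hn0, ← Real.rpow_add hn0]
      exact Real.rpow_le_rpow_of_exponent_le hn1 (by linarith)
    have h2 : ρ * ((n : ℝ) ^ (γ + ε - η) / 6) ≤ ρ * G :=
      mul_le_mul_of_nonneg_left hG2 hρ0.le
    have h3 : (1 : ℝ) ≤ (n : ℝ) ^ (γ + ε / 2) :=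
      Real.one_le_rpow hn1 (by linarith)
    have h4 : (n : ℝ) ^ (γ + ε / 2) * 48000 ≤ (n : ℝ) ^ (γ + ε / 2) * (n : ℝ) ^ (ε / 4) :=
      mul_le_mul_of_nonneg_left k5 (by linarith)
    linarith
  have h5 : (2 : ℝ) ^ (-(ρ * G / 8)) ≤ (2 : ℝ) ^ (-((n : ℝ) ^ (γ + ε / 2))) / 4 := by
    have h6 : (2 : ℝ) ^ (-((n : ℝ) ^ (γ + ε / 2))) / 4 =
        (2 : ℝ) ^ (-((n : ℝ) ^ (γ + ε / 2)) - 2) := by
      rw [Real.rpow_sub (by norm_num)]
      norm_num
    rw [h6]
    exact Real.rpow_le_rpow_of_exponent_le (by norm_num) (by linarith)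
  have h7 : (0 : ℝ) < (2 : ℝ) ^ (-((n : ℝ) ^ (γ + ε / 2))) := by positivity
  linarith

end Pool.Agent.RO
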