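import Mathlib
import Pool.Agent.Lib.MP_b573ec_lc_RO.Lower

/-!
# Labels which occur an odd number of times: the lower bound for randomised circuits
-/

set_option autoImplicit false

namespace Pool.Agent.RO

open Finset Pool.Agent.FP Pool.Agent.RK Pool.Agent.RT

theorem count_item {n k r : ℕ} (i : Fin n) (L : List (Item n k ⊕ Fin r)) :
    @List.count (Item n k ⊕ Fin r) instBEqOfDecidableEq (Sum.inl (Sum.inl i)) L =
      L.count (Sum.inl (Sum.inl i)) := by
  unfold List.count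
  refine List.countP_congr fun v _ => ?_
  rcases v with (v | v) | v
  · show (decide (Sum.inl (Sum.inl v) = (Sum.inl (Sum.inl i) : Item n k ⊕ Fin r)) = true) ↔
      ((v == i) = true)
    simp
  · show (decide (Sum.inl (Sum.inr v) = (Sum.inl (Sum.inl i) : Item n k ⊕ Fin r)) = true) ↔
      (false = true)
    simp
  · show (decide (Sum.inr v = (Sum.inl (Sum.inl i) : Item n k ⊕ Fin r)) = true) ↔ (false = true)
    simp

open Classical in
/-- a fixed assignment of the random bits -/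
private theorem lower_fix {n k r s N : ℕ} {η δ γ c : ℝ} (E1 E2 : Finset (Fin n))
    (hd : Disjoint E1 E2) (hcard : E1.card = E2.card) (hE : (n : ℝ) ^ η ≤ E1.card)
    (Q : Fin N → Item n k → Bool)
    (hfam : ∀ X : Fin 2 → Finset (Item n k), (n : ℝ) ^ (-δ) * (E1.card : ℝ) ^ 2 ≤
            ((E1.filter fun v => (.inl v : Item n k) ∈ X 0).card : ℝ) *
              (E2.filter fun v => (.inl v : Item n k) ∈ X 1).card →
          ∀ T : (Item n k → Bool) → Prop, StarK X T → (∀ x, T x → ¬ OddLabel x) →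
            ((univ.filter fun i => T (Q i)).card : ℝ) ≤
              N * (2 : ℝ) ^ (-((n : ℝ) ^ (γ + η))))
    (h2 : ∀ (V : Type) [Fintype V] [DecidableEq V] (E1 E2 : Finset V),
      Disjoint E1 E2 → E1.card = E2.card →
      (n : ℝ) ^ η ≤ E1.card →
      ∀ (N : ℕ) (Q : Fin N → V → Bool) (C : (V → Bool) → Prop),
        (∀ X : Fin 2 → Finset V, (n : ℝ) ^ (-δ) * (E1.card : ℝ) ^ 2 ≤
          ((E1 ∩ X 0).card : ℝ) * ((E2 ∩ X 1).card : ℝ) →
          ∀ T : (V → Bool) → Prop, StarK X T → (∀ x, T x → C x) →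
            (Nat.card {i // T (Q i)} : ℝ) ≤
              N * (2 : ℝ) ^ (-((n : ℝ) ^ (γ + η)))) →
        ∀ (s : ℕ) (D : Circuit V s), (∀ x, ¬ D.Accepts x → C x) →
          (s : ℝ) ≤ (2 : ℝ) ^ ((n : ℝ) ^ γ) →
          (∀ e ∈ E1 ∪ E2, ∀ L, Tree D D.out L → (L.count e : ℝ) ≤ c * Real.logb 2 n) →
          (Nat.card {i // ¬ D.Accepts (Q i)} : ℝ) ≤
            N * (2 : ℝ) ^ (-((n : ℝ) ^ γ)))
    (D : Circuit (Item n k ⊕ Fin r) s) (hs : (s : ℝ) ≤ (2 : ℝ) ^ ((n : ℝ) ^ γ))
    (hD : ∀ (z : Item n k → Bool) (w : Fin r → Bool), OddLabel z → D.Accepts (Sum.elim z w))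
    (hcnt : ∀ i ∈ E1 ∪ E2, ∀ L, Tree D D.out L →
      (L.count (Sum.inl (Sum.inl i)) : ℝ) ≤ c * Real.logb 2 n) (w : Fin r → Bool) :
    ((univ.filter fun i => ¬ D.Accepts (Sum.elim (Q i) w)).card : ℝ) ≤
      N * (2 : ℝ) ^ (-((n : ℝ) ^ γ)) := by
  have hinj : Function.Injective
      (fun i : Fin n => (Sum.inl (Sum.inl i) : Item n k ⊕ Fin r)) := by
    intro i j h
    simpa using h
  have hrestr : ∀ (E : Finset (Fin n)) (X : Finset (Item n k ⊕ Fin r)),
      ((E.map ⟨_, hinj⟩) ∩ X).card =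
        (E.filter fun v => (.inl v : Item n k) ∈ univ.filter fun e => Sum.inl e ∈ X).card := by
    intro E X
    rw [← card_map ⟨_, hinj⟩
      (s := E.filter fun v => (.inl v : Item n k) ∈ univ.filter fun e => Sum.inl e ∈ X)]
    congr 1
    ext v
    simp only [mem_inter, mem_map, Function.Embedding.coeFn_mk, mem_filter, mem_univ, true_and]
    constructor
    · rintro ⟨⟨e, he, rfl⟩, h⟩
      exact ⟨e, ⟨he, h⟩, rfl⟩
    · rintro ⟨e, ⟨he, h⟩, rfl⟩
      exact ⟨⟨e, he, rfl⟩, h⟩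
  have h := h2 (Item n k ⊕ Fin r) (E1.map ⟨_, hinj⟩) (E2.map ⟨_, hinj⟩)
    ((disjoint_map _).2 hd) (by rw [card_map, card_map, hcard]) (by rw [card_map]; exact hE) N
    (fun i => Sum.elim (Q i) w) (fun z => ¬ OddLabel fun e => z (Sum.inl e)) ?_ s D ?_ hs ?_
  · rw [Nat.card_eq_fintype_card, Fintype.card_subtype] at h
    exact h
  · intro X hX T hT hTC
    rw [hrestr, hrestr, card_map] at hX
    have h3 := hfam (fun t => univ.filter fun e => Sum.inl e ∈ X t) hX
      (fun x => T (Sum.elim x w)) ?_ ?_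
    · rw [Nat.card_eq_fintype_card, Fintype.card_subtype]
      exact h3
    · intro u v huv hv
      refine hT _ (fun t => Sum.elim (v t) w) ?_ hv
      rintro t (e | j) he
      · exact huv t e fun he' => he (mem_filter.1 he').2
      · rfl
    · intro x hx
      exact hTC _ hx
  · intro z hz hodd
    refine hz ?_
    have h3 := hD (fun e => z (Sum.inl e)) (fun j => z (Sum.inr j)) hodd
    convert h3 using 1
    funext v
    rcases v with v | v <;> rfl
  · intro e he L hL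
    rw [← map_union, mem_map] at he
    obtain ⟨e', he', rfl⟩ := he
    refine le_trans (le_of_eq ?_) (hcnt e' he' L hL)
    exact congrArg (Nat.cast : ℕ → ℝ) (count_item e' L)

open Classical in
/-- **Lower bound.** -/
theorem lower (γ ε : ℝ) (hγ : 0 ≤ γ) (hε : 0 < ε) : ∃ c : ℝ, 0 < c ∧
    ∃ n₀ : ℕ, ∀ n ≥ n₀, ∀ E : Finset (Fin n), (n : ℝ) ^ (γ + ε) ≤ E.card →
      ∃ (N : ℕ) (Q : Fin N → Item n (Nat.clog 2 n) → Bool), 0 < N ∧ (∀ i, ¬ OddLabel (Q i)) ∧
        ∀ (s r : ℕ) (D : Circuit (Item n (Nat.clog 2 n) ⊕ Fin r) s),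
          (s : ℝ) ≤ (2 : ℝ) ^ ((n : ℝ) ^ γ) →
          (∀ (z : Item n (Nat.clog 2 n) → Bool) (w : Fin r → Bool), OddLabel z →
            D.Accepts (Sum.elim z w)) →
          (∀ i ∈ E, ∀ L, Tree D D.out L →
            (L.count (Sum.inl (Sum.inl i)) : ℝ) ≤ c * Real.logb 2 n) →
          ((univ.filter fun p : Fin N × (Fin r → Bool) =>
            ¬ D.Accepts (Sum.elim (Q p.1) p.2)).card : ℝ) ≤
            N * 2 ^ r * (2 : ℝ) ^ (-((n : ℝ) ^ γ)) := by
  obtain ⟨δ, hδ, n₁, h1⟩ := rel_odd γ ε hγ hε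
  obtain ⟨c, hc, n₂, h2⟩ := Pool.Agent.RA.mainG γ (ε / 2) δ hγ (by positivity) hδ
  refine ⟨c, hc, max n₁ n₂, fun n hn E hE => ?_⟩
  obtain ⟨E1, E2, hE1, hE2, hd, hcard, hEη, N, Q, hN, hQ, hfam⟩ :=
    h1 n (le_trans (le_max_left _ _) hn) E hE
  refine ⟨N, Q, hN, hQ, fun s r D hs hD hcnt => ?_⟩
  have key := lower_fix E1 E2 hd hcard hEη Q hfam (c := c)
    (fun V _ _ => h2 n (le_trans (le_max_right _ _) hn) V) D hs hD (by
      intro e he L hL
      refine hcnt e ?_ L hL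
      rcases mem_union.1 he with he | he
      · exact hE1 he
      · exact hE2 he)
  have h3 : ((univ.filter fun p : Fin N × (Fin r → Bool) =>
      ¬ D.Accepts (Sum.elim (Q p.1) p.2)).card : ℝ) =
      ∑ w : Fin r → Bool, ((univ.filter fun i => ¬ D.Accepts (Sum.elim (Q i) w)).card : ℝ) := by
    rw [card_filter]
    push_cast
    rw [Fintype.sum_prod_type_right]
    refine sum_congr rfl fun w _ => ?_
    rw [card_filter]
    push_cast
    rfl
  rw [h3]
  refine (sum_le_sum fun w _ => key w).trans (le_of_eq ?_)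
  rw [sum_const, card_univ, Fintype.card_fun, Fintype.card_bool, Fintype.card_fin, nsmul_eq_mul]
  push_cast
  ring

end Pool.Agent.RO
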