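import Mathlib
import Pool.Agent.Lib.MP_b573ec_lc_RO.Rel
import Pool.Agent.Lib.MP_b573ec_lc_RO.Main
import Pool.Agent.Lib.MP_0a1b52_lc_RT.RandA
import Pool.Agent.Lib.MP_0a1b52_lc_LS.CoreK

/-!
# Labels which occur an odd number of times: the lower bound with explicit constants
-/

set_option autoImplicit false

namespace Pool.Agent.RO

open Finset Pool.Agent.FP Pool.Agent.RK Pool.Agent.RT

open Classical in
private theorem one_side {n k m G : ℕ} {ed : Fin 2 → Fin m → Fin n} {lab : Fin G → Fin k → Bool}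
    (hed : ∀ t t' x x', ed t x = ed t' x' → t = t' ∧ x = x') (hlab : Function.Injective lab)
    {Φ : Type} [Fintype Φ] (Λ : Φ → Finset (Fin G)) (q : Φ → Fin G → Fin 2 → Fin m)
    (hq : ∀ φ t, ∀ i ∈ Λ φ, ∀ i' ∈ Λ φ, q φ i t = q φ i' t → i = i') (g β : ℝ)
    (X : Fin 2 → Finset (Item n k)) (T : (Item n k → Bool) → Prop)
    (hT : StarK X T) (hTc : ∀ x, T x → ¬ OddLabel x)
    (hφ : ((univ.filter fun φ : Φ => (((Λ φ).filter fun i =>
      ∀ t, (.inl (ed t (q φ i t)) : Item n k) ∈ X t).card : ℝ) < g).card : ℝ) ≤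
        Fintype.card Φ * β) :
    ((univ.filter fun j : Φ × (Fin G → Bool) =>
      T (inp ed lab (Λ j.1) (q j.1) fun _ => j.2)).card : ℝ) ≤
      Fintype.card Φ * 2 ^ G * ((2 : ℝ) ^ (-g) + β) := by
  set B : Finset Φ := univ.filter fun φ : Φ => (((Λ φ).filter fun i =>
      ∀ t, (.inl (ed t (q φ i t)) : Item n k) ∈ X t).card : ℝ) < g with hB
  have h1 : ((univ.filter fun j : Φ × (Fin G → Bool) =>
      T (inp ed lab (Λ j.1) (q j.1) fun _ => j.2)).card : ℝ) =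
      ∑ φ : Φ, ((univ.filter fun x : Fin G → Bool =>
        T (inp ed lab (Λ φ) (q φ) fun _ => x)).card : ℝ) := by
    rw [card_filter]
    push_cast
    rw [Fintype.sum_prod_type]
    refine sum_congr rfl fun φ _ => ?_
    rw [card_filter]
    push_cast
    rfl
  rw [h1]
  have h2 : ∀ φ : Φ, ((univ.filter fun x : Fin G → Bool =>
        T (inp ed lab (Λ φ) (q φ) fun _ => x)).card : ℝ) ≤
      (2 : ℝ) ^ G * (2 : ℝ) ^ (-g) + if φ ∈ B then (2 : ℝ) ^ G else 0 := by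
    intro φ
    split_ifs with hφB
    · have h3 : (univ.filter fun x : Fin G → Bool =>
        T (inp ed lab (Λ φ) (q φ) fun _ => x)).card ≤ 2 ^ G := by
        refine (card_le_univ _).trans (le_of_eq ?_)
        simp
      have h4 : ((univ.filter fun x : Fin G → Bool =>
        T (inp ed lab (Λ φ) (q φ) fun _ => x)).card : ℝ) ≤ (2 : ℝ) ^ G := by exact_mod_cast h3
      have h5 : (0 : ℝ) ≤ (2 : ℝ) ^ G * (2 : ℝ) ^ (-g) := by positivity
      linarith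
    · rw [add_zero]
      have h3 := fool_odd hed (hq φ) hlab X
        ((Λ φ).filter fun i => ∀ t, (.inl (ed t (q φ i t)) : Item n k) ∈ X t) (filter_subset _ _)
        (fun i hi => (mem_filter.1 hi).2) T hT hTc
      have h4 : g ≤ (((Λ φ).filter fun i =>
          ∀ t, (.inl (ed t (q φ i t)) : Item n k) ∈ X t).card : ℝ) := by
        by_contra hc
        push Not at hc
        exact hφB (by simp only [hB, mem_filter, mem_univ, true_and]; exact hc)
      have h5 : ((univ.filter fun x : Fin G → Bool =>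
        T (inp ed lab (Λ φ) (q φ) fun _ => x)).card : ℝ) *
          (2 : ℝ) ^ ((Λ φ).filter fun i =>
            ∀ t, (.inl (ed t (q φ i t)) : Item n k) ∈ X t).card ≤ (2 : ℝ) ^ G := by
        exact_mod_cast h3
      rw [Real.rpow_neg (by norm_num), ← div_eq_mul_inv, le_div_iff₀ (by positivity)]
      refine le_trans (mul_le_mul_of_nonneg_left ?_ (Nat.cast_nonneg _)) h5
      rw [← Real.rpow_natCast (2 : ℝ) (Finset.card _)]
      exact Real.rpow_le_rpow_of_exponent_le (by norm_num) h4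
  refine (sum_le_sum fun φ _ => h2 φ).trans ?_
  rw [sum_add_distrib, sum_const, card_univ, nsmul_eq_mul, ← sum_filter, sum_const, nsmul_eq_mul]
  have h6 : (univ.filter fun φ => φ ∈ B) = B := by
    ext φ
    simp
  rw [h6]
  have h7 : (0 : ℝ) < (2 : ℝ) ^ G := by positivity
  have h8 := mul_le_mul_of_nonneg_right hφ h7.le
  nlinarith

open Classical in
/-- hard inputs, explicit form -/
theorem rel_expl {n l N₁ G Θ : ℕ} (hG1 : 1 ≤ G) (hΘ : 1 ≤ Θ) (hG : 128 * Θ ^ 2 * G ≤ N₁)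
    (hGl : G ≤ 2 ^ l) (ed : Fin 2 → Fin N₁ → Fin n)
    (hed : ∀ t t' x x', ed t x = ed t' x' → t = t' ∧ x = x') :
    ∃ (ι : Type) (_ : Fintype ι) (Q : ι → Item n l → Bool), 0 < Fintype.card ι ∧
      (∀ i, ¬ OddLabel (Q i)) ∧
      ∀ (X : Fin 2 → Finset (Item n l)) (J : Fin 2 → Finset (Fin N₁)),
        (∀ k, N₁ ≤ 2 * Θ * (J k).card) → (∀ k, ∀ j ∈ J k, .inl (ed k j) ∈ X k) →
        ∀ T : (Item n l → Bool) → Prop, StarK X T → (∀ x, T x → ¬ OddLabel x) →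
          (Nat.card {i // T (Q i)} : ℝ) ≤
            Fintype.card ι * (3 * (2 : ℝ) ^ (-((G : ℝ) / (32 * Θ ^ 2)))) := by
  have hΘR : (1 : ℝ) ≤ Θ := by exact_mod_cast hΘ
  have hΘ0 : (0 : ℝ) < Θ := by linarith
  have hGR : (1 : ℝ) ≤ G := by exact_mod_cast hG1
  have hG0 : (0 : ℝ) < G := by linarith
  have hGN : (128 : ℝ) * Θ ^ 2 * G ≤ N₁ := by exact_mod_cast hG
  have hN0 : (0 : ℝ) < N₁ := lt_of_lt_of_le (by positivity) hGN
  have hN1 : 1 ≤ N₁ := by
    have : 0 < N₁ := by exact_mod_cast hN0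
    omega
  have hlabc : Fintype.card (Fin G) ≤ Fintype.card (Fin l → Bool) := by
    rw [Fintype.card_fin, Fintype.card_fun, Fintype.card_bool, Fintype.card_fin]
    exact hGl
  obtain ⟨lab⟩ := Function.Embedding.nonempty_of_card_le hlabc
  obtain ⟨Φ, hΦ, Λ, q, hΦ0, hq, hgood⟩ := randA N₁ G hN1 (2 * (G : ℝ) ^ 2 / N₁) (by positivity)
    le_rfl
  refine ⟨Φ × (Fin G → Bool), inferInstance,
    fun j => inp ed lab (Λ j.1) (q j.1) fun _ => j.2, ?_, ?_, ?_⟩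
  · rw [Fintype.card_prod]
    exact Nat.mul_pos hΦ0 Fintype.card_pos
  · intro i hi
    obtain ⟨j, -, hj⟩ := (odd_iff hed (hq i.1) lab.injective _).1 hi
    exact hj rfl
  intro X J hJ hJX T hT hTc
  obtain ⟨ρ, hρ⟩ : ∃ ρ : ℝ, ρ = 1 / (4 * Θ ^ 2) := ⟨_, rfl⟩
  have hρ0 : 0 ≤ ρ := by rw [hρ]; positivity
  have hρ1 : ρ ≤ 1 := by
    rw [hρ, div_le_one (by positivity)]
    nlinarith
  have hJR : ∀ k, (N₁ : ℝ) / (2 * Θ) ≤ (J k).card := by
    intro k
    rw [div_le_iff₀ (by positivity)]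
    have := hJ k
    have h2 : (N₁ : ℝ) ≤ 2 * Θ * (J k).card := by exact_mod_cast this
    linarith
  have h1 := hgood J ρ hρ0 hρ1 (by
    have h2 := mul_le_mul (hJR 0) (hJR 1) (by positivity) (by positivity)
    refine le_trans (le_of_eq ?_) h2
    rw [hρ]
    field_simp
    ring)
  have hρG : ρ * G = G / (4 * Θ ^ 2) := by
    rw [hρ]
    ring
  have hb : 2 * (2 * (G : ℝ) ^ 2 / N₁) ≤ ρ * G / 8 := by
    rw [hρG]
    have h2 : 2 * (2 * (G : ℝ) ^ 2 / N₁) = 4 * G ^ 2 / N₁ := by ring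
    rw [h2, div_div, div_le_div_iff₀ hN0 (by positivity)]
    have h3 := mul_le_mul_of_nonneg_left hGN hG0.le
    nlinarith
  have hg : (G : ℝ) / (32 * Θ ^ 2) ≤ ρ * G / 4 - 2 * (2 * (G : ℝ) ^ 2 / N₁) := by
    have h2 : (G : ℝ) / (32 * Θ ^ 2) = ρ * G / 8 := by
      rw [hρG, div_div]
      congr 1
      ring
    rw [h2]
    linarith
  have hone := one_side hed lab.injective Λ q hq ((G : ℝ) / (32 * Θ ^ 2))
    (2 * (2 : ℝ) ^ (-((G : ℝ) / (32 * Θ ^ 2)))) X T hT hTc (by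
      refine le_trans ?_ (h1.trans ?_)
      · refine Nat.cast_le.2 (card_le_card ?_)
        intro φ hφ
        rw [mem_filter] at hφ ⊢
        refine ⟨mem_univ _, lt_of_le_of_lt ?_ (lt_of_lt_of_le hφ.2 hg)⟩
        refine Nat.cast_le.2 (card_le_card ?_)
        intro i hi
        rw [mem_filter] at hi ⊢
        exact ⟨hi.1, fun t => hJX t _ (hi.2 t)⟩
      · refine mul_le_mul_of_nonneg_left ?_ (Nat.cast_nonneg _)
        refine mul_le_mul_of_nonneg_left ?_ (by norm_num)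
        refine Real.rpow_le_rpow_of_exponent_le (by norm_num) ?_
        have h2 : (G : ℝ) / (32 * Θ ^ 2) = ρ * G / 8 := by
          rw [hρG, div_div]
          congr 1
          ring
        rw [h2]
        have : 0 ≤ ρ * G := by positivity
        linarith)
  rw [Nat.card_eq_fintype_card, Fintype.card_subtype]
  refine hone.trans (le_of_eq ?_)
  rw [Fintype.card_prod, Fintype.card_fun, Fintype.card_bool, Fintype.card_fin]
  push_cast
  ring


private theorem num_count {s R : ℕ} {z g : ℝ} (hs1 : 1 ≤ s) (hs : (s : ℝ) ≤ (2 : ℝ) ^ z)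
    (hz : 1 ≤ z) (hR : 3 ≤ R) (hg : 8 * z * R ≤ g) :
    (((s * (s + 1) + 1) ^ R * (2 * s) ^ (R + 1) : ℕ) : ℝ) * (3 * (2 : ℝ) ^ (-g)) ≤
      (2 : ℝ) ^ (-z) := by
  have h1 : (s * (s + 1) + 1) ^ R * (2 * s) ^ (R + 1) ≤ (2 * s) ^ (3 * R + 1) := by
    have h2 : s * (s + 1) + 1 ≤ (2 * s) ^ 2 := by nlinarith
    calc (s * (s + 1) + 1) ^ R * (2 * s) ^ (R + 1) ≤ ((2 * s) ^ 2) ^ R * (2 * s) ^ (R + 1) :=
          Nat.mul_le_mul_right _ (Nat.pow_le_pow_left h2 R)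
      _ = (2 * s) ^ (3 * R + 1) := by
          rw [← pow_mul, ← pow_add]
          congr 1
          ring
  have h2 : (((2 * s) ^ (3 * R + 1) : ℕ) : ℝ) ≤ (2 : ℝ) ^ ((z + 1) * (3 * R + 1)) := by
    push_cast
    have h3 : (2 : ℝ) * s ≤ (2 : ℝ) ^ (z + 1) := by
      rw [Real.rpow_add (by norm_num), Real.rpow_one]
      linarith
    have h4 : (2 : ℝ) ^ ((z + 1) * (3 * R + 1)) = ((2 : ℝ) ^ (z + 1)) ^ (3 * R + 1) := by
      rw [← Real.rpow_natCast ((2 : ℝ) ^ (z + 1)), ← Real.rpow_mul (by norm_num)]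
      push_cast
      rfl
    rw [h4]
    exact pow_le_pow_left₀ (by positivity) h3 _
  have h3 : (3 : ℝ) ≤ (2 : ℝ) ^ (2 : ℝ) := by
    rw [Real.rpow_two]
    norm_num
  have hRR : (3 : ℝ) ≤ R := by exact_mod_cast hR
  calc (((s * (s + 1) + 1) ^ R * (2 * s) ^ (R + 1) : ℕ) : ℝ) * (3 * (2 : ℝ) ^ (-g))
      ≤ (2 : ℝ) ^ ((z + 1) * (3 * R + 1)) * ((2 : ℝ) ^ (2 : ℝ) * (2 : ℝ) ^ (-g)) := by
        refine mul_le_mul ((Nat.cast_le.2 h1).trans h2) ?_ (by positivity) (by positivity)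
        exact mul_le_mul_of_nonneg_right h3 (by positivity)
    _ = (2 : ℝ) ^ ((z + 1) * (3 * R + 1) + (2 + -g)) := by
        rw [Real.rpow_add (by norm_num), Real.rpow_add (by norm_num)]
    _ ≤ (2 : ℝ) ^ (-z) := by
        refine Real.rpow_le_rpow_of_exponent_le (by norm_num) ?_
        nlinarith

private theorem num_par {r m N₁ G : ℕ} (hr : 1 ≤ r) (hm : 2 ^ (40 * r) ≤ m) (hN : N₁ = m / 4)
    (hG : G = N₁ / (128 * (4 ^ r) ^ 2)) :
    1 ≤ G ∧ 16 * r * 4 ^ r < N₁ ∧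
      8 * ((m : ℝ) / 2 ^ (40 * r)) * ((256 * r ^ 2 * 4 ^ r : ℕ) : ℝ) ≤
        (G : ℝ) / (32 * ((4 ^ r : ℕ) : ℝ) ^ 2) := by
  obtain ⟨P, hP⟩ : ∃ P : ℕ, P = 2 ^ r := ⟨_, rfl⟩
  have hP4 : 4 ^ r = P ^ 2 := by
    rw [hP, ← pow_mul, mul_comm r 2, pow_mul]
    norm_num
  have hP40 : 2 ^ (40 * r) = P ^ 40 := by
    rw [hP, ← pow_mul, mul_comm]
  have hP2 : 2 ≤ P := by
    rw [hP]
    calc 2 = 2 ^ 1 := by norm_num
      _ ≤ 2 ^ r := Nat.pow_le_pow_right (by norm_num) hr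
  have hrP : r ≤ P := by
    rw [hP]
    exact (Nat.lt_two_pow_self).le
  have hP28 : 2 ^ 28 ≤ P ^ 28 := Nat.pow_le_pow_left hP2 28
  rw [hP40] at hm
  rw [hP4] at hG ⊢
  -- `N₁`
  have hm4 : P ^ 12 * 2 ^ 28 ≤ m := by
    calc P ^ 12 * 2 ^ 28 ≤ P ^ 12 * P ^ 28 := Nat.mul_le_mul_left _ hP28
      _ = P ^ 40 := by rw [← pow_add]
      _ ≤ m := hm
  have hP1 : 1 ≤ P := by omega
  have hN8 : m ≤ 8 * N₁ := by
    have h1 : 1 ≤ P ^ 12 := Nat.one_le_pow _ _ hP1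
    have h2 : 2 ^ 28 ≤ m := by nlinarith
    omega
  have hNbig : P ^ 12 * 2 ^ 25 ≤ N₁ := by
    have h1 : P ^ 12 * 2 ^ 28 = 8 * (P ^ 12 * 2 ^ 25) := by ring
    exact Nat.le_of_mul_le_mul_left (by rw [← h1]; exact hm4.trans hN8) (by norm_num)
  have hA : 128 * (P ^ 2) ^ 2 ≤ N₁ := by
    refine le_trans ?_ hNbig
    have h1 : (P ^ 2) ^ 2 = P ^ 4 := by ring
    have h2 : P ^ 4 ≤ P ^ 12 := Nat.pow_le_pow_right hP1 (by norm_num)
    rw [h1]
    nlinarith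
  have hG1 : 1 ≤ G := by
    rw [hG]
    exact Nat.div_pos hA (by positivity)
  refine ⟨hG1, ?_, ?_⟩
  · refine lt_of_lt_of_le ?_ hNbig
    have h1 : P ^ 3 ≤ P ^ 12 := Nat.pow_le_pow_right hP1 (by norm_num)
    have h2 : r * P ^ 2 ≤ P ^ 3 := by
      rw [pow_succ P 2, mul_comm (P ^ 2) P]
      exact Nat.mul_le_mul_right _ hrP
    have h3 : 1 ≤ P ^ 12 := Nat.one_le_pow _ _ hP1
    nlinarith
  -- the real inequality
  have hP0 : (0 : ℝ) < P := by exact_mod_cast hP1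
  have hG2 : (N₁ : ℝ) ≤ G * (256 * (P : ℝ) ^ 4) := by
    have h1 : N₁ < (G + 1) * (128 * (P ^ 2) ^ 2) := by
      rw [hG, mul_comm]
      exact Nat.lt_mul_div_succ _ (by positivity)
    have h2 : N₁ ≤ G * (256 * P ^ 4) := by
      have h3 : (G + 1) * (128 * (P ^ 2) ^ 2) ≤ (2 * G) * (128 * (P ^ 2) ^ 2) :=
        Nat.mul_le_mul_right _ (by omega)
      have h4 : (2 * G) * (128 * (P ^ 2) ^ 2) = G * (256 * P ^ 4) := by ring
      omega
    exact_mod_cast h2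
  have hm8 : (m : ℝ) ≤ 8 * N₁ := by exact_mod_cast hN8
  push_cast
  have e1 : (2 : ℝ) ^ (40 * r) = (P : ℝ) ^ 40 := by exact_mod_cast hP40
  rw [e1]
  have hrR : (r : ℝ) ≤ P := by exact_mod_cast hrP
  have hr2 : (r : ℝ) ^ 2 ≤ (P : ℝ) ^ 2 := pow_le_pow_left₀ (Nat.cast_nonneg _) hrR 2
  have hP28R : (2 : ℝ) ^ 28 ≤ (P : ℝ) ^ 28 := by exact_mod_cast hP28
  rw [le_div_iff₀ (by positivity)]
  have h5 : 8 * ((m : ℝ) / (P : ℝ) ^ 40) * (256 * (r : ℝ) ^ 2 * (P : ℝ) ^ 2) *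
      (32 * ((P : ℝ) ^ 2) ^ 2) = (m : ℝ) * (65536 * (r : ℝ) ^ 2 * (P : ℝ) ^ 6) / (P : ℝ) ^ 40 := by
    ring
  rw [h5, div_le_iff₀ (by positivity)]
  have h6 : (m : ℝ) * (65536 * (r : ℝ) ^ 2 * (P : ℝ) ^ 6) ≤
      (8 * (G * (256 * (P : ℝ) ^ 4))) * (65536 * (P : ℝ) ^ 2 * (P : ℝ) ^ 6) := by
    refine mul_le_mul (hm8.trans (mul_le_mul_of_nonneg_left hG2 (by norm_num))) ?_
      (by positivity) (by positivity)
    exact mul_le_mul_of_nonneg_right (mul_le_mul_of_nonneg_left hr2 (by norm_num)) (by positivity)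
  refine h6.trans ?_
  have h7 : (8 * ((G : ℝ) * (256 * (P : ℝ) ^ 4))) * (65536 * (P : ℝ) ^ 2 * (P : ℝ) ^ 6) =
      G * ((P : ℝ) ^ 12 * 2 ^ 27) := by ring
  rw [h7]
  refine mul_le_mul_of_nonneg_left ?_ (Nat.cast_nonneg _)
  calc (P : ℝ) ^ 12 * 2 ^ 27 ≤ (P : ℝ) ^ 12 * (P : ℝ) ^ 28 := by
        refine mul_le_mul_of_nonneg_left (le_trans (by norm_num) hP28R) (by positivity)
    _ = (P : ℝ) ^ 40 := by rw [← pow_add]

open Classical in
/-- **Lower bound with explicit constants.** -/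
theorem lowerE {n r m : ℕ} (hr : 1 ≤ r) (hm : 2 ^ (40 * r) ≤ m) (hn : m ≤ n)
    (E : Finset (Fin n)) (hE : m ≤ E.card) :
    ∃ (N : ℕ) (Q : Fin N → Item n (Nat.clog 2 n) → Bool), 0 < N ∧ (∀ i, ¬ OddLabel (Q i)) ∧
      ∀ (s t : ℕ) (D : Circuit (Item n (Nat.clog 2 n) ⊕ Fin t) s),
        (s : ℝ) ≤ (2 : ℝ) ^ ((m : ℝ) / 2 ^ (40 * r)) →
        (∀ (z : Item n (Nat.clog 2 n) → Bool) (w : Fin t → Bool), OddLabel z →
          D.Accepts (Sum.elim z w)) →
        (∀ i ∈ E, ∀ L, Tree D D.out L → L.count (Sum.inl (Sum.inl i)) ≤ r) →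
        ((univ.filter fun p : Fin N × (Fin t → Bool) =>
          ¬ D.Accepts (Sum.elim (Q p.1) p.2)).card : ℝ) ≤
          N * 2 ^ t * (2 : ℝ) ^ (-((m : ℝ) / 2 ^ (40 * r))) := by
  obtain ⟨N₁, hN₁⟩ : ∃ N₁, N₁ = m / 4 := ⟨_, rfl⟩
  obtain ⟨G, hG⟩ : ∃ G, G = N₁ / (128 * (4 ^ r) ^ 2) := ⟨_, rfl⟩
  obtain ⟨hG1, hτ, hfin⟩ := num_par hr hm hN₁ hG
  have hΘ1 : 1 ≤ 4 ^ r := Nat.one_le_pow _ _ (by norm_num)
  -- the items
  obtain ⟨e, he1, he2⟩ : ∃ e : Fin 2 → Fin N₁ → Bool → Fin n, (∀ k j t, e k j t ∈ E) ∧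
      ∀ k j t k' j' t', e k j t = e k' j' t' → k = k' ∧ j = j' ∧ t = t' := by
    have h1 : Fintype.card (Fin 2 × Fin N₁ × Bool) ≤ Fintype.card {v // v ∈ E} := by
      rw [Fintype.card_prod, Fintype.card_prod, Fintype.card_fin, Fintype.card_fin,
        Fintype.card_bool, Fintype.card_coe]
      omega
    obtain ⟨f⟩ := Function.Embedding.nonempty_of_card_le h1
    refine ⟨fun k j t => (f (k, j, t)).1, fun k j t => (f (k, j, t)).2,
      fun k j t k' j' t' h => ?_⟩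
    have h2 := f.injective (Subtype.ext h)
    simp only [Prod.mk.injEq] at h2
    exact h2
  have hGN : 128 * (4 ^ r) ^ 2 * G ≤ N₁ := by
    rw [hG]
    exact Nat.mul_div_le _ _
  have hGl : G ≤ 2 ^ Nat.clog 2 n := by
    have h1 : G ≤ N₁ := by
      rw [hG]
      exact Nat.div_le_self _ _
    have h2 := Nat.le_pow_clog (b := 2) (by norm_num) n
    omega
  obtain ⟨ι, hι, Q, hQ0, hQ, hfam⟩ := rel_expl (l := Nat.clog 2 n) hG1 hΘ1 hGN hGl
    (fun k j => e k j false) (fun t t' x x' h => ⟨(he2 _ _ _ _ _ _ h).1, (he2 _ _ _ _ _ _ h).2.1⟩)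
  obtain ⟨φ⟩ : Nonempty (ι ≃ Fin (Fintype.card ι)) := ⟨Fintype.equivFin _⟩
  refine ⟨Fintype.card ι, fun i => Q (φ.symm i), hQ0, fun i => hQ _, ?_⟩
  intro s t D hs hD hcnt
  obtain ⟨z, hz⟩ : ∃ z : ℝ, z = (m : ℝ) / 2 ^ (40 * r) := ⟨_, rfl⟩
  rw [← hz] at hs hfin ⊢
  have hz1 : 1 ≤ z := by
    rw [hz, le_div_iff₀ (by positivity), one_mul]
    exact_mod_cast hm
  have hs1 : 1 ≤ s := by
    have := D.out.2
    omega
  obtain ⟨τ, hτdef⟩ : ∃ τ, τ = (N₁ - 1) / (16 * r * 4 ^ r) := ⟨_, rfl⟩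
  have hc0 : 0 < 16 * r * 4 ^ r := by positivity
  have hτ1 : 1 ≤ τ := by
    rw [hτdef]
    exact Nat.div_pos (by omega) hc0
  have hτ2 : 16 * r * 4 ^ r * τ ≤ N₁ - 1 := by
    rw [hτdef]
    exact Nat.mul_div_le _ _
  have hτ3 : N₁ ≤ 16 * r * 4 ^ r * (τ + 1) := by
    have h1 := Nat.lt_mul_div_succ (N₁ - 1) hc0
    rw [← hτdef] at h1
    omega
  have key : ∀ w : Fin t → Bool, ((univ.filter fun i : Fin (Fintype.card ι) =>
      ¬ D.Accepts (Sum.elim (Q (φ.symm i)) w)).card : ℝ) ≤ Fintype.card ι * (2 : ℝ) ^ (-z) := by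
    intro w
    have h1 := Pool.Agent.LS.core_boundK (K := 2) (N₁ := N₁) le_rfl D
      (fun k j t => Sum.inl (Sum.inl (e k j t)))
      (fun k j t k' j' t' h => he2 k j t k' j' t' (Sum.inl_injective (Sum.inl_injective h)))
      r τ (256 * r ^ 2 * 4 ^ r) (4 ^ r) hτ1
      (fun k j t L hL => (count_item _ L).le.trans (hcnt _ (he1 k j t) L hL))
      (by
        have h2 := Nat.mul_le_mul_left (16 * r) hτ3
        calc 8 * (r * (2 * N₁)) = 16 * r * N₁ := by ring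
          _ ≤ 16 * r * (16 * r * 4 ^ r * (τ + 1)) := h2
          _ = 256 * r ^ 2 * 4 ^ r * (τ + 1) := by ring)
      (by
        have h2 : 1 ≤ r ^ 2 := Nat.one_le_pow _ _ hr
        nlinarith)
      (by
        rw [pow_mul]
        norm_num)
      (by
        have h2 : 4 * 2 * (2 * r) * τ * 4 ^ r = 16 * r * 4 ^ r * τ := by ring
        rw [h2]
        omega)
      (ι := ι) (fun i => Sum.elim (Q i) w)
      (Fintype.card ι * (3 * (2 : ℝ) ^ (-((G : ℝ) / (32 * ((4 ^ r : ℕ) : ℝ) ^ 2)))))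
      (by positivity)
      (by
        intro X J hJ hJX T hT hTC
        have h2 := hfam (fun k => univ.filter fun f => Sum.inl f ∈ X k) J hJ
          (fun k j hj => mem_filter.2 ⟨mem_univ _, hJX k j hj false⟩)
          (fun x => T (Sum.elim x w)) ?_ ?_
        · exact h2
        · intro u v huv hv
          refine hT _ (fun k => Sum.elim (v k) w) ?_ hv
          rintro k (f | j) hf
          · exact huv k f fun hf' => hf (mem_filter.1 hf').2
          · rfl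
        · intro x hx hodd
          exact hTC _ hx (hD x w hodd))
    have h3 : ((univ.filter fun i : Fin (Fintype.card ι) =>
        ¬ D.Accepts (Sum.elim (Q (φ.symm i)) w)).card : ℝ) =
        Nat.card {i : ι // ¬ D.Accepts (Sum.elim (Q i) w)} := by
      rw [Nat.card_eq_fintype_card, Fintype.card_subtype, Nat.cast_inj]
      refine card_bij (fun i _ => φ.symm i) ?_ ?_ ?_
      · intro i hi
        exact mem_filter.2 ⟨mem_univ _, (mem_filter.1 hi).2⟩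
      · intro i _ j _ h
        exact φ.symm.injective h
      · intro i hi
        refine ⟨φ i, mem_filter.2 ⟨mem_univ _, ?_⟩, φ.symm_apply_apply i⟩
        have h2 := (mem_filter.1 hi).2
        simpa only [φ.symm_apply_apply] using h2
    rw [h3]
    refine h1.trans ?_
    have h4 := num_count (R := 256 * r ^ 2 * 4 ^ r) hs1 hs hz1 (by
      have h2 : 1 ≤ r ^ 2 := Nat.one_le_pow _ _ hr
      nlinarith) hfin
    have h5 : (0 : ℝ) ≤ Fintype.card ι := Nat.cast_nonneg _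
    have h6 := mul_le_mul_of_nonneg_left h4 h5
    refine le_trans (le_of_eq ?_) h6
    ring
  have h3 : ((univ.filter fun p : Fin (Fintype.card ι) × (Fin t → Bool) =>
      ¬ D.Accepts (Sum.elim (Q (φ.symm p.1)) p.2)).card : ℝ) =
      ∑ w : Fin t → Bool, ((univ.filter fun i : Fin (Fintype.card ι) =>
        ¬ D.Accepts (Sum.elim (Q (φ.symm i)) w)).card : ℝ) := by
    rw [card_filter]
    push_cast
    rw [Fintype.sum_prod_type_right]
    refine sum_congr rfl fun w _ => ?_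
    rw [card_filter]
    push_cast
    rfl
  rw [h3]
  refine (sum_le_sum fun w _ => key w).trans (le_of_eq ?_)
  rw [sum_const, card_univ, Fintype.card_fun, Fintype.card_bool, Fintype.card_fin, nsmul_eq_mul]
  push_cast
  ring

end Pool.Agent.RO
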