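import Mathlib
import Pool.Agent.Lib.MP_b573ec_lc_RO.Main

/-!
# Labels which occur an odd number of times: the lower bound in terms of the number of data bits
-/

set_option autoImplicit false

namespace Pool.Agent.RO

open Finset Pool.Agent.FP Pool.Agent.RK Pool.Agent.RT

/-- the bits of `m` items as bits of `n` items -/
private def emb {m n k l : ℕ} (f : Fin m → Fin n) (h : k ≤ l) : Item m k → Item n l
  | .inl i => .inl (f i)
  | .inr (i, j) => .inr (f i, Fin.castLE h j)

private theorem emb_inj {m n k l : ℕ} {f : Fin m → Fin n} (hf : Function.Injective f) (h : k ≤ l) :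
    Function.Injective (emb f h) := by
  rintro (i | ⟨i, j⟩) (i' | ⟨i', j'⟩) hh
  · simp only [emb, Sum.inl.injEq] at hh
    rw [hf hh]
  · simp [emb] at hh
  · simp [emb] at hh
  · simp only [emb, Sum.inr.injEq, Prod.mk.injEq] at hh
    have h1 := hf hh.1
    have h2 := Fin.castLE_injective h hh.2
    rw [h1, h2]

/-- `m` items as `n` items: the other bits are `0` -/
private noncomputable def ext {m n k l : ℕ} (f : Fin m → Fin n) (h : k ≤ l) (z : Item m k → Bool) :
    Item n l → Bool :=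
  Function.extend (emb f h) z fun _ => false

private theorem ext_emb {m n k l : ℕ} {f : Fin m → Fin n} (hf : Function.Injective f) (h : k ≤ l)
    (z : Item m k → Bool) (e : Item m k) : ext f h z (emb f h e) = z e :=
  (emb_inj hf h).extend_apply _ _ _

private theorem ext_not {m n k l : ℕ} (f : Fin m → Fin n) (h : k ≤ l)
    (z : Item m k → Bool) (e : Item n l) (he : ¬ ∃ a, emb f h a = e) : ext f h z e = false :=
  Function.extend_apply' _ _ _ he

open Classical in
private theorem ext_odd {m n k l : ℕ} {f : Fin m → Fin n} (hf : Function.Injective f) (h : k ≤ l)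
    (z : Item m k → Bool) : OddLabel (ext f h z) ↔ OddLabel z := by
  have hinl : ∀ i' : Fin n, ext f h z (.inl i') = true → ∃ i, f i = i' ∧ z (.inl i) = true := by
    intro i' hi'
    by_cases he : ∃ a, emb f h a = .inl i'
    · obtain ⟨a | ⟨a, b⟩, ha⟩ := he
      · simp only [emb, Sum.inl.injEq] at ha
        refine ⟨a, ha, ?_⟩
        rw [← ext_emb hf h z (.inl a)]
        simp only [emb]
        rw [ha, hi']
      · simp [emb] at ha
    · rw [ext_not f h z _ he] at hi'
      exact absurd hi' (by simp)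
  have hinr : ∀ (i : Fin m) (j : Fin k), ext f h z (.inr (f i, Fin.castLE h j)) = z (.inr (i, j)) :=
    fun i j => ext_emb hf h z (.inr (i, j))
  have hinr' : ∀ (i : Fin m) (j' : Fin l), ¬ (∃ j : Fin k, Fin.castLE h j = j') →
      ext f h z (.inr (f i, j')) = false := by
    intro i j' hj'
    refine ext_not f h z _ ?_
    rintro ⟨a | ⟨a, b⟩, ha⟩
    · simp [emb] at ha
    · simp only [emb, Sum.inr.injEq, Prod.mk.injEq] at ha
      exact hj' ⟨b, ha.2⟩
  have hinl' : ∀ i, ext f h z (.inl (f i)) = z (.inl i) := fun i => ext_emb hf h z (.inl i)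
  -- the sets of items
  have key : ∀ (l' : Fin l → Bool) (l0 : Fin k → Bool), (∀ j, l' (Fin.castLE h j) = l0 j) →
      (∀ j', ¬ (∃ j : Fin k, Fin.castLE h j = j') → l' j' = false) →
      (univ.filter fun i' : Fin n => ext f h z (.inl i') = true ∧
        ∀ j', ext f h z (.inr (i', j')) = l' j').card =
      (univ.filter fun i : Fin m => z (.inl i) = true ∧ ∀ j, z (.inr (i, j)) = l0 j).card := by
    intro l' l0 h1 h2
    symm
    refine card_bij (fun i _ => f i) ?_ (fun _ _ _ _ hh => hf hh) ?_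
    · intro i hi
      obtain ⟨-, hi1, hi2⟩ := mem_filter.1 hi
      refine mem_filter.2 ⟨mem_univ _, by rw [hinl', hi1], fun j' => ?_⟩
      by_cases hj' : ∃ j : Fin k, Fin.castLE h j = j'
      · obtain ⟨j, rfl⟩ := hj'
        rw [hinr, h1, hi2]
      · rw [hinr' i j' hj', h2 j' hj']
    · intro i' hi'
      obtain ⟨-, hi1, hi2⟩ := mem_filter.1 hi'
      obtain ⟨i, rfl, hi3⟩ := hinl i' hi1
      refine ⟨i, mem_filter.2 ⟨mem_univ _, hi3, fun j => ?_⟩, rfl⟩
      rw [← hinr i j, hi2, h1]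
  constructor
  · rintro ⟨l', hl'⟩
    refine ⟨fun j => l' (Fin.castLE h j), ?_⟩
    rw [← key l' _ (fun _ => rfl)]
    · exact hl'
    · intro j' hj'
      have hne : (univ.filter fun i' : Fin n => ext f h z (.inl i') = true ∧
          ∀ j', ext f h z (.inr (i', j')) = l' j').Nonempty := by
        rw [nonempty_iff_ne_empty]
        intro h0
        rw [h0] at hl'
        simp at hl'
      obtain ⟨i', hi'⟩ := hne
      obtain ⟨-, hi1, hi2⟩ := mem_filter.1 hi'
      obtain ⟨i, rfl, -⟩ := hinl i' hi1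
      rw [← hi2, hinr' i j' hj']
  · rintro ⟨l0, hl0⟩
    refine ⟨fun j' => if hj : (j' : ℕ) < k then l0 ⟨j', hj⟩ else false, ?_⟩
    rw [key _ l0 (fun j => by simp) fun j' hj' => ?_]
    · exact hl0
    · rw [dif_neg]
      intro hj
      exact hj' ⟨⟨j', hj⟩, Fin.ext rfl⟩

open Classical in
/-- a fixed assignment of the random bits -/
private theorem lower_fix {m n k l r s N : ℕ} {η δ γ c : ℝ} {f : Fin m → Fin n}
    (hf : Function.Injective f) (h : k ≤ l) (E1 E2 : Finset (Fin m))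
    (hd : Disjoint E1 E2) (hcard : E1.card = E2.card) (hE : (m : ℝ) ^ η ≤ E1.card)
    (Q : Fin N → Item m k → Bool)
    (hfam : ∀ X : Fin 2 → Finset (Item m k), (m : ℝ) ^ (-δ) * (E1.card : ℝ) ^ 2 ≤
            ((E1.filter fun v => (.inl v : Item m k) ∈ X 0).card : ℝ) *
              (E2.filter fun v => (.inl v : Item m k) ∈ X 1).card →
          ∀ T : (Item m k → Bool) → Prop, StarK X T → (∀ x, T x → ¬ OddLabel x) →
            ((univ.filter fun i => T (Q i)).card : ℝ) ≤
              N * (2 : ℝ) ^ (-((m : ℝ) ^ (γ + η))))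
    (h2 : ∀ (V : Type) [Fintype V] [DecidableEq V] (E1 E2 : Finset V),
      Disjoint E1 E2 → E1.card = E2.card →
      (m : ℝ) ^ η ≤ E1.card →
      ∀ (N : ℕ) (Q : Fin N → V → Bool) (C : (V → Bool) → Prop),
        (∀ X : Fin 2 → Finset V, (m : ℝ) ^ (-δ) * (E1.card : ℝ) ^ 2 ≤
          ((E1 ∩ X 0).card : ℝ) * ((E2 ∩ X 1).card : ℝ) →
          ∀ T : (V → Bool) → Prop, StarK X T → (∀ x, T x → C x) →
            (Nat.card {i // T (Q i)} : ℝ) ≤
              N * (2 : ℝ) ^ (-((m : ℝ) ^ (γ + η)))) →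
        ∀ (s : ℕ) (D : Circuit V s), (∀ x, ¬ D.Accepts x → C x) →
          (s : ℝ) ≤ (2 : ℝ) ^ ((m : ℝ) ^ γ) →
          (∀ e ∈ E1 ∪ E2, ∀ L, Tree D D.out L → (L.count e : ℝ) ≤ c * Real.logb 2 m) →
          (Nat.card {i // ¬ D.Accepts (Q i)} : ℝ) ≤
            N * (2 : ℝ) ^ (-((m : ℝ) ^ γ)))
    (D : Circuit (Item n l ⊕ Fin r) s) (hs : (s : ℝ) ≤ (2 : ℝ) ^ ((m : ℝ) ^ γ))
    (hD : ∀ (z : Item n l → Bool) (w : Fin r → Bool), OddLabel z → D.Accepts (Sum.elim z w))
    (hcnt : ∀ i ∈ E1 ∪ E2, ∀ L, Tree D D.out L →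
      (L.count (Sum.inl (Sum.inl (f i))) : ℝ) ≤ c * Real.logb 2 m) (w : Fin r → Bool) :
    ((univ.filter fun i => ¬ D.Accepts (Sum.elim (ext f h (Q i)) w)).card : ℝ) ≤
      N * (2 : ℝ) ^ (-((m : ℝ) ^ γ)) := by
  have hinj : Function.Injective
      (fun i : Fin m => (Sum.inl (Sum.inl (f i)) : Item n l ⊕ Fin r)) := by
    intro i j hh
    simp only [Sum.inl.injEq] at hh
    exact hf hh
  have hrestr : ∀ (E : Finset (Fin m)) (X : Finset (Item n l ⊕ Fin r)),
      ((E.map ⟨_, hinj⟩) ∩ X).card =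
        (E.filter fun v => (.inl v : Item m k) ∈
          univ.filter fun e : Item m k => (Sum.inl (emb f h e) : Item n l ⊕ Fin r) ∈ X).card := by
    intro E X
    rw [← card_map ⟨_, hinj⟩
      (s := E.filter fun v => (.inl v : Item m k) ∈
        univ.filter fun e : Item m k => (Sum.inl (emb f h e) : Item n l ⊕ Fin r) ∈ X)]
    congr 1
    ext v
    simp only [mem_inter, mem_map, Function.Embedding.coeFn_mk, mem_filter, mem_univ, true_and]
    constructor
    · rintro ⟨⟨e, he, rfl⟩, hh⟩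
      exact ⟨e, ⟨he, hh⟩, rfl⟩
    · rintro ⟨e, ⟨he, hh⟩, rfl⟩
      exact ⟨⟨e, he, rfl⟩, hh⟩
  have h3 := h2 (Item n l ⊕ Fin r) (E1.map ⟨_, hinj⟩) (E2.map ⟨_, hinj⟩)
    ((disjoint_map _).2 hd) (by rw [card_map, card_map, hcard]) (by rw [card_map]; exact hE) N
    (fun i => Sum.elim (ext f h (Q i)) w) (fun z => ¬ OddLabel fun e => z (Sum.inl e)) ?_ s D ?_ hs
    ?_
  · rw [Nat.card_eq_fintype_card, Fintype.card_subtype] at h3
    exact h3
  · intro X hX T hT hTC
    rw [hrestr, hrestr, card_map] at hX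
    have h4 := hfam (fun t => univ.filter fun e => Sum.inl (emb f h e) ∈ X t) hX
      (fun x => T (Sum.elim (ext f h x) w)) ?_ ?_
    · rw [Nat.card_eq_fintype_card, Fintype.card_subtype]
      exact h4
    · intro u v huv hv
      refine hT _ (fun t => Sum.elim (ext f h (v t)) w) ?_ hv
      rintro t (e | j) he
      · show ext f h (v t) e = ext f h u e
        by_cases hr : ∃ a, emb f h a = e
        · obtain ⟨a, rfl⟩ := hr
          rw [ext_emb hf, ext_emb hf]
          exact huv t a fun he' => he (mem_filter.1 he').2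
        · rw [ext_not f h _ _ hr, ext_not f h _ _ hr]
      · rfl
    · intro x hx
      have h5 := hTC _ hx
      rw [← ext_odd hf h x]
      exact h5
  · intro z hz hodd
    refine hz ?_
    have h4 := hD (fun e => z (Sum.inl e)) (fun j => z (Sum.inr j)) hodd
    convert h4 using 1
    funext v
    rcases v with v | v <;> rfl
  · intro e he L hL
    rw [← map_union, mem_map] at he
    obtain ⟨e', he', rfl⟩ := he
    refine le_trans (le_of_eq ?_) (hcnt e' he' L hL)
    exact congrArg (Nat.cast : ℕ → ℝ) (count_item (f e') L)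

open Classical in
/-- **Lower bound in terms of the number of data bits.** -/
theorem lowerM (ε : ℝ) (hε : 0 < ε) (hε1 : ε ≤ 1) : ∃ c : ℝ, 0 < c ∧
    ∃ m₀ : ℕ, ∀ m ≥ m₀, ∀ n ≥ m, ∀ E : Finset (Fin n), m ≤ E.card →
      ∃ (N : ℕ) (Q : Fin N → Item n (Nat.clog 2 n) → Bool), 0 < N ∧ (∀ i, ¬ OddLabel (Q i)) ∧
        ∀ (s r : ℕ) (D : Circuit (Item n (Nat.clog 2 n) ⊕ Fin r) s),
          (s : ℝ) ≤ (2 : ℝ) ^ ((m : ℝ) ^ (1 - ε)) →
          (∀ (z : Item n (Nat.clog 2 n) → Bool) (w : Fin r → Bool), OddLabel z →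
            D.Accepts (Sum.elim z w)) →
          (∀ i ∈ E, ∀ L, Tree D D.out L →
            (L.count (Sum.inl (Sum.inl i)) : ℝ) ≤ c * Real.logb 2 m) →
          ((univ.filter fun p : Fin N × (Fin r → Bool) =>
            ¬ D.Accepts (Sum.elim (Q p.1) p.2)).card : ℝ) ≤
            N * 2 ^ r * (2 : ℝ) ^ (-((m : ℝ) ^ (1 - ε))) := by
  obtain ⟨δ, hδ, n₁, h1⟩ := rel_odd (1 - ε) ε (by linarith) hε
  obtain ⟨c, hc, n₂, h2⟩ := Pool.Agent.RA.mainG (1 - ε) (ε / 2) δ (by linarith) (by positivity) hδ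
  refine ⟨c, hc, max n₁ n₂, fun m hm n hn E hE => ?_⟩
  obtain ⟨E1, E2, -, -, hd, hcard, hEη, N, Q, hN, hQ, hfam⟩ :=
    h1 m (le_trans (le_max_left _ _) hm) univ (by
      rw [card_univ, Fintype.card_fin, show (1 : ℝ) - ε + ε = 1 by ring, Real.rpow_one])
  -- the items
  obtain ⟨E', hE', hE'c⟩ := exists_subset_card_eq hE
  set f : Fin m → Fin n := fun i => E'.orderEmbOfFin hE'c i with hfdef
  have hf : Function.Injective f := (E'.orderEmbOfFin hE'c).injective
  have hfE : ∀ i, f i ∈ E := fun i => hE' (E'.orderEmbOfFin_mem hE'c i)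
  have hl : Nat.clog 2 m ≤ Nat.clog 2 n := Nat.clog_mono_right 2 hn
  refine ⟨N, fun i => ext f hl (Q i), hN, fun i hi => hQ i ((ext_odd hf hl _).1 hi),
    fun s r D hs hD hcnt => ?_⟩
  have key := lower_fix hf hl E1 E2 hd hcard hEη Q hfam (c := c)
    (fun V _ _ => h2 m (le_trans (le_max_right _ _) hm) V) D hs hD
    (fun i _ L hL => hcnt _ (hfE i) L hL)
  have h3 : ((univ.filter fun p : Fin N × (Fin r → Bool) =>
      ¬ D.Accepts (Sum.elim (ext f hl (Q p.1)) p.2)).card : ℝ) =
      ∑ w : Fin r → Bool,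
        ((univ.filter fun i => ¬ D.Accepts (Sum.elim (ext f hl (Q i)) w)).card : ℝ) := by
    rw [card_filter]
    push_cast
    rw [Fintype.sum_prod_type_right]
    refine sum_congr rfl fun w _ => ?_
    rw [card_filter]
    push_cast
    rfl
  rw [h3]
  refine (sum_le_sum fun w _ => key w).trans (le_of_eq ?_)
  rw [sum_const, card_univ, Fintype.card_fun, Fintype.card_bool, Fintype.card_fin, nsmul_eq_mul]
  push_cast
  ring

end Pool.Agent.RO
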