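import Mathlib
import Pool.Agent.Lib.MP_b573ec_lc_RO.Defs

/-!
# Labels which occur an odd number of times: the polynomial
-/

set_option autoImplicit false

namespace Pool.Agent.RO

open Finset Pool.Agent.FP

/-- the sum of `ρ ^ (label of i)` over the items `i` with data bit `1` -/
def evl {n k : ℕ} {F : Type} [Field F] (z : Item n k → Bool) (ρ : F) : F :=
  ∑ i, if z (.inl i) = true then ∏ j, (if z (.inr (i, j)) = true then ρ ^ 2 ^ (j : ℕ) else 1) else 0

/-- the number whose binary digits are given by the label -/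
private def num {k : ℕ} (l : Fin k → Bool) : ℕ :=
  (finFunctionFinEquiv (m := 2) (n := k) fun j => finTwoEquiv.symm (l j) : Fin (2 ^ k))

private theorem num_lt {k : ℕ} (l : Fin k → Bool) : num l < 2 ^ k := Fin.is_lt _

private theorem num_inj {k : ℕ} {l l' : Fin k → Bool} (h : num l = num l') : l = l' := by
  have h1 := finFunctionFinEquiv.injective (Fin.ext h)
  funext j
  exact finTwoEquiv.symm.injective (congrFun h1 j)

private theorem num_eq {k : ℕ} (l : Fin k → Bool) :
    num l = ∑ j : Fin k, if l j = true then 2 ^ (j : ℕ) else 0 := by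
  unfold num
  rw [finFunctionFinEquiv_apply]
  refine sum_congr rfl fun j _ => ?_
  cases h : l j <;> simp [finTwoEquiv]

private theorem prod_eq {k : ℕ} {F : Type} [Field F] (l : Fin k → Bool) (ρ : F) :
    ∏ j : Fin k, (if l j = true then ρ ^ 2 ^ (j : ℕ) else 1) = ρ ^ num l := by
  rw [num_eq, ← prod_pow_eq_pow_sum]
  refine prod_congr rfl fun j _ => ?_
  split_ifs
  · rfl
  · rw [pow_zero]

open Classical in
private theorem evl_eq {n k : ℕ} {F : Type} [Field F] (z : Item n k → Bool) (ρ : F) :
    evl z ρ = ∑ l : Fin k → Bool, ((univ.filter fun i => z (.inl i) = true ∧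
      ∀ j, z (.inr (i, j)) = l j).card : F) * ρ ^ num l := by
  have h1 : evl z ρ = ∑ i, ∑ l : Fin k → Bool,
      if z (.inl i) = true ∧ ∀ j, z (.inr (i, j)) = l j then ρ ^ num l else 0 := by
    unfold evl
    refine sum_congr rfl fun i _ => ?_
    rw [Finset.sum_eq_single (fun j => z (.inr (i, j)))]
    · by_cases h : z (.inl i) = true
      · rw [if_pos h, if_pos ⟨h, fun _ => rfl⟩, prod_eq]
      · rw [if_neg h, if_neg fun h' => h h'.1]
    · intro l _ hl
      rw [if_neg]
      rintro ⟨-, h⟩
      exact hl (funext fun j => (h j).symm)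
    · intro h
      exact absurd (mem_univ _) h
  rw [h1, sum_comm]
  refine sum_congr rfl fun l _ => ?_
  rw [← sum_filter, sum_const, nsmul_eq_mul]

open Classical in
theorem poly {n k : ℕ} (F : Type) [Field F] [Fintype F] [CharP F 2]
    (hF : Fintype.card F = 2 ^ (k + 1)) (z : Item n k → Bool) :
    (¬ OddLabel z → ∀ ρ : F, evl z ρ = 0) ∧
      (OddLabel z → 2 ^ k ≤ (univ.filter fun ρ : F => evl z ρ ≠ 0).card) := by
  set c : (Fin k → Bool) → ℕ := fun l =>
    (univ.filter fun i => z (.inl i) = true ∧ ∀ j, z (.inr (i, j)) = l j).card with hc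
  have hev : ∀ ρ : F, evl z ρ = ∑ l : Fin k → Bool, (c l : F) * ρ ^ num l := evl_eq z
  constructor
  · intro h ρ
    rw [hev]
    refine sum_eq_zero fun l _ => ?_
    have h1 : c l % 2 = 0 := by
      rcases Nat.mod_two_eq_zero_or_one (c l) with h1 | h1
      · exact h1
      · exact absurd ⟨l, h1⟩ h
    have h2 : ((c l : ℕ) : F) = 0 :=
      (CharP.cast_eq_zero_iff F 2 (c l)).2 (Nat.dvd_of_mod_eq_zero h1)
    rw [h2, zero_mul]
  · rintro ⟨l₀, hl₀⟩
    set P : Polynomial F := ∑ l : Fin k → Bool, Polynomial.C (c l : F) * Polynomial.X ^ num l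
      with hP
    have hPe : ∀ ρ, P.eval ρ = evl z ρ := by
      intro ρ
      rw [hev, hP, Polynomial.eval_finsetSum]
      refine sum_congr rfl fun l _ => ?_
      rw [Polynomial.eval_mul, Polynomial.eval_C, Polynomial.eval_pow, Polynomial.eval_X]
    have h2 : P.coeff (num l₀) = (c l₀ : F) := by
      rw [hP, Polynomial.finsetSum_coeff, Finset.sum_eq_single l₀]
      · rw [Polynomial.coeff_C_mul, Polynomial.coeff_X_pow_self, mul_one]
      · intro l _ hl
        rw [Polynomial.coeff_C_mul, Polynomial.coeff_X_pow, if_neg fun h => hl (num_inj h.symm),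
          mul_zero]
      · intro h
        exact absurd (mem_univ _) h
    have h3 : ((c l₀ : ℕ) : F) ≠ 0 := by
      rw [Ne, CharP.cast_eq_zero_iff F 2 (c l₀)]
      intro h
      have h4 : c l₀ % 2 = 1 := hl₀
      omega
    have hP0 : P ≠ 0 := by
      intro h
      rw [h, Polynomial.coeff_zero] at h2
      exact h3 h2.symm
    have hdeg : P.natDegree < 2 ^ k := by
      have h5 : P.natDegree ≤ 2 ^ k - 1 := by
        refine Polynomial.natDegree_sum_le_of_forall_le _ _ fun l _ => ?_
        exact (Polynomial.natDegree_C_mul_X_pow_le _ _).trans (Nat.le_sub_one_of_lt (num_lt l))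
      have h6 : 0 < 2 ^ k := by positivity
      omega
    have h7 : (univ.filter fun ρ : F => evl z ρ = 0).card ≤ P.natDegree := by
      have h8 : (univ.filter fun ρ : F => evl z ρ = 0) ⊆ P.roots.toFinset := by
        intro ρ hρ
        rw [Multiset.mem_toFinset, Polynomial.mem_roots hP0, Polynomial.IsRoot.def, hPe]
        exact (mem_filter.1 hρ).2
      exact (card_le_card h8).trans ((Multiset.toFinset_card_le _).trans (Polynomial.card_roots' P))
    have h9 := card_filter_add_card_filter_not (s := (univ : Finset F)) (fun ρ => evl z ρ = 0)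
    rw [card_univ, hF, pow_succ] at h9
    have h10 : (univ.filter fun ρ : F => ¬ evl z ρ = 0).card =
      (univ.filter fun ρ : F => evl z ρ ≠ 0).card := rfl
    omega

end Pool.Agent.RO
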