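import Mathlib
import Pool.Agent.Lib.MP_b573ec_lc_RO.Program
import Pool.Agent.Lib.MP_b573ec_lc_RO.Poly

/-!
# Labels which occur an odd number of times: a randomised circuit
-/

set_option autoImplicit false

namespace Pool.Agent.RO

open Finset Pool.Agent.FP Pool.Agent.RT

/-- the variable read at the time `t` -/
private def vr (n k : ℕ) (hn : 0 < n) (t : ℕ) : Item n k :=
  if h : t / (k + 1) < n then
    if h' : t % (k + 1) = 0 then .inl ⟨t / (k + 1), h⟩
    else .inr (⟨t / (k + 1), h⟩, ⟨t % (k + 1) - 1, by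
      have : t % (k + 1) < k + 1 := Nat.mod_lt t (Nat.succ_pos k)
      omega⟩)
  else .inl ⟨0, hn⟩

private theorem vr_inl {n k : ℕ} (hn : 0 < n) {m : ℕ} (hm : m < n) :
    vr n k hn (m * (k + 1)) = .inl ⟨m, hm⟩ := by
  have h1 : m * (k + 1) / (k + 1) = m := Nat.mul_div_cancel _ (Nat.succ_pos k)
  have h2 : m * (k + 1) % (k + 1) = 0 := Nat.mul_mod_left _ _
  simp [vr, h1, hm]

private theorem vr_inr {n k : ℕ} (hn : 0 < n) {m j : ℕ} (hm : m < n) (hj : j < k) :
    vr n k hn (m * (k + 1) + 1 + j) = .inr (⟨m, hm⟩, ⟨j, hj⟩) := by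
  have h1 : (m * (k + 1) + 1 + j) / (k + 1) = m := by
    rw [add_assoc, add_comm, Nat.add_mul_div_right _ _ (Nat.succ_pos k),
      Nat.div_eq_of_lt (by omega), zero_add]
  have h2 : (m * (k + 1) + 1 + j) % (k + 1) = 1 + j := by
    rw [add_assoc, add_comm, Nat.add_mul_mod_self_right, Nat.mod_eq_of_lt (by omega)]
  simp only [vr, h1, h2, hm, dif_pos]
  rw [dif_neg (by omega)]
  congr 2
  exact Fin.ext (by simp)

private theorem vr_inj {n k : ℕ} (hn : 0 < n) {t t' : ℕ} (ht : t < n * (k + 1))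
    (ht' : t' < n * (k + 1)) (h : vr n k hn t = vr n k hn t') : t = t' := by
  have h1 : t / (k + 1) < n := Nat.div_lt_of_lt_mul (by rwa [mul_comm])
  have h2 : t' / (k + 1) < n := Nat.div_lt_of_lt_mul (by rwa [mul_comm])
  have e1 := Nat.div_add_mod t (k + 1)
  have e2 := Nat.div_add_mod t' (k + 1)
  simp only [vr, h1, h2, dif_pos] at h
  by_cases c1 : t % (k + 1) = 0 <;> by_cases c2 : t' % (k + 1) = 0
  · rw [dif_pos c1, dif_pos c2] at h
    have h3 : t / (k + 1) = t' / (k + 1) := by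
      have := Sum.inl_injective h
      simpa using this
    rw [← e1, ← e2, c1, c2, h3]
  · rw [dif_pos c1, dif_neg c2] at h
    cases h
  · rw [dif_neg c1, dif_pos c2] at h
    cases h
  · rw [dif_neg c1, dif_neg c2] at h
    have h3 := Sum.inr_injective h
    have h4 : t / (k + 1) = t' / (k + 1) := by
      have := congrArg (fun p => (p.1 : ℕ)) h3
      simpa using this
    have h5 : t % (k + 1) - 1 = t' % (k + 1) - 1 := by
      have := congrArg (fun p => (p.2 : ℕ)) h3
      simpa using this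
    have h6 : t % (k + 1) = t' % (k + 1) := by omega
    rw [← e1, ← e2, h4, h6]

/-- one step of the program -/
private def stp {F : Type} [Field F] (k : ℕ) (ρ : F) (t : ℕ) (s : F × F) (a : Bool) : F × F :=
  if t % (k + 1) = 0 then (s.1 + s.2, if a = true then 1 else 0)
  else (s.1, if a = true then s.2 * ρ ^ 2 ^ (t % (k + 1) - 1) else s.2)

/-- the run of the program -/
private def rn {n k : ℕ} (hn : 0 < n) {F : Type} [Field F] (ρ : F) (z : Item n k → Bool) :
    ℕ → F × F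
  | 0 => (0, 0)
  | t + 1 => stp k ρ t (rn hn ρ z t) (z (vr n k hn t))

private theorem rn_item {n k : ℕ} (hn : 0 < n) {F : Type} [Field F] (ρ : F)
    (z : Item n k → Bool) (m : ℕ) (hm : m < n) (j : ℕ) (hj : j ≤ k) :
    rn hn ρ z (m * (k + 1) + 1 + j) =
      ((rn hn ρ z (m * (k + 1))).1 + (rn hn ρ z (m * (k + 1))).2,
        if z (.inl ⟨m, hm⟩) = true then
          ∏ i ∈ range j, (if h : i < k then
            (if z (.inr (⟨m, hm⟩, ⟨i, h⟩)) = true then ρ ^ 2 ^ i else 1) else 1) else 0) := by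
  induction j with
  | zero =>
    show rn hn ρ z (m * (k + 1) + 1) = _
    rw [rn, stp, if_pos (Nat.mul_mod_left _ _), vr_inl hn hm]
    simp
  | succ j ih =>
    have h2 : (m * (k + 1) + 1 + j) % (k + 1) = 1 + j := by
      rw [add_assoc, add_comm, Nat.add_mul_mod_self_right, Nat.mod_eq_of_lt (by omega)]
    show rn hn ρ z (m * (k + 1) + 1 + j + 1) = _
    rw [rn, stp, h2, if_neg (by omega), vr_inr hn hm (by omega), ih (by omega), prod_range_succ,
      dif_pos (by omega : j < k)]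
    have h3 : 1 + j - 1 = j := by omega
    rw [h3]
    refine Prod.ext rfl ?_
    show (if z (.inr (⟨m, hm⟩, ⟨j, _⟩)) = true then _ else _) = _
    by_cases c1 : z (.inr (⟨m, hm⟩, ⟨j, by omega⟩)) = true <;>
      by_cases c2 : z (.inl ⟨m, hm⟩) = true <;> simp [c1, c2]

private theorem rn_sum {n k : ℕ} (hn : 0 < n) {F : Type} [Field F] (ρ : F)
    (z : Item n k → Bool) (m : ℕ) (hm : m ≤ n) :
    (rn hn ρ z (m * (k + 1))).1 + (rn hn ρ z (m * (k + 1))).2 =
      ∑ i ∈ range m, if h : i < n then (if z (.inl ⟨i, h⟩) = true then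
        ∏ j : Fin k, (if z (.inr (⟨i, h⟩, j)) = true then ρ ^ 2 ^ (j : ℕ) else 1) else 0)
          else 0 := by
  induction m with
  | zero => simp [rn]
  | succ m ih =>
    have h1 : (m + 1) * (k + 1) = m * (k + 1) + 1 + k := by ring
    rw [h1, rn_item hn ρ z m (by omega) k le_rfl, sum_range_succ, dif_pos (by omega : m < n),
      ← ih (by omega), prod_range]
    have h2 : (∏ i : Fin k, (if h : (i : ℕ) < k then
        (if z (.inr (⟨m, hm⟩, ⟨i, h⟩)) = true then ρ ^ 2 ^ (i : ℕ) else 1) else 1)) =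
        ∏ i : Fin k, (if z (.inr (⟨m, hm⟩, i)) = true then ρ ^ 2 ^ (i : ℕ) else 1) :=
      prod_congr rfl fun i _ => by rw [dif_pos i.2]
    rw [h2]

private theorem rn_evl {n k : ℕ} (hn : 0 < n) {F : Type} [Field F] (ρ : F)
    (z : Item n k → Bool) :
    (rn hn ρ z (n * (k + 1))).1 + (rn hn ρ z (n * (k + 1))).2 = evl z ρ := by
  rw [rn_sum hn ρ z n le_rfl, evl, sum_range]
  refine sum_congr rfl fun i _ => ?_
  rw [dif_pos i.2]

private theorem size_le {n k : ℕ} (h1 : 2 ^ k < 2 * n) (h2 : 544 * (k + 2) ≤ n) :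
    2 ^ (k + 1) * (8 * (n * (k + 1) + 1) * (2 ^ (k + 1) * 2 ^ (k + 1)) + 8 * (k + 1) + 8) ≤
      n ^ 5 := by
  have h3 : 2 ^ (k + 1) ≤ 4 * n := by rw [pow_succ]; omega
  have hn : 1 ≤ n := by omega
  have h4 : n * (k + 1) + 1 ≤ n * (k + 2) := by nlinarith
  calc 2 ^ (k + 1) * (8 * (n * (k + 1) + 1) * (2 ^ (k + 1) * 2 ^ (k + 1)) + 8 * (k + 1) + 8)
      ≤ (4 * n) * (8 * (n * (k + 2)) * ((4 * n) * (4 * n)) + 8 * (k + 1) + 8) := by gcongr
    _ = 512 * (n ^ 4 * (k + 2)) + 32 * (n * (k + 2)) := by ring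
    _ ≤ 512 * (n ^ 4 * (k + 2)) + 32 * (n ^ 4 * (k + 2)) := by
      gcongr
      exact Nat.le_self_pow (by norm_num) n
    _ = n ^ 4 * (544 * (k + 2)) := by ring
    _ ≤ n ^ 4 * n := by gcongr
    _ = n ^ 5 := by ring

private theorem log_le (m : ℕ) : 544 * (m + 15 + 2) ≤ 2 ^ (m + 14) := by
  induction m with
  | zero => norm_num
  | succ m ih =>
    have : 2 ^ (m + 1 + 14) = 2 * 2 ^ (m + 14) := by ring
    omega

open Classical in
theorem upperE {n : ℕ} (hn : 2 ^ 15 ≤ n) :
    ∃ (r s : ℕ) (D : Circuit (Item n (Nat.clog 2 n) ⊕ Fin r) s), 2 ^ r ≤ 4 * n ∧ s ≤ n ^ 5 ∧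
      (∀ (z : Item n (Nat.clog 2 n) → Bool) (w : Fin r → Bool),
        D.Accepts (Sum.elim z w) → OddLabel z) ∧
      (∀ z : Item n (Nat.clog 2 n) → Bool, OddLabel z →
        2 ^ r ≤ 2 * (univ.filter fun w : Fin r → Bool => D.Accepts (Sum.elim z w)).card) ∧
      ∀ L, Tree D D.out L → ∀ v : Item n (Nat.clog 2 n), L.count (Sum.inl v) ≤ 1 := by
  have hn2 : 2 ≤ n := le_trans (by norm_num) hn
  have hn0 : 0 < n := by omega
  have hk : 15 ≤ Nat.clog 2 n := by
    have h := Nat.clog_mono_right 2 hn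
    rwa [Nat.clog_pow 2 15 (by norm_num)] at h
  have hk1 : 2 ^ (Nat.clog 2 n).pred < n := Nat.pow_pred_clog_lt_self (by norm_num) (by omega)
  generalize Nat.clog 2 n = k at hk hk1
  obtain ⟨m, rfl⟩ : ∃ m, k = m + 15 := ⟨k - 15, by omega⟩
  have hk2 : 2 ^ (m + 14) < n := hk1
  have hs1 : 2 ^ (m + 15) < 2 * n := by
    have : 2 ^ (m + 15) = 2 * 2 ^ (m + 14) := by ring
    omega
  have hs2 : 544 * (m + 15 + 2) ≤ n := le_trans (log_le m) hk2.le
  generalize m + 15 = k at hs1 hs2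
  have : Fintype (GaloisField 2 (k + 1)) := Fintype.ofFinite _
  have hF : Fintype.card (GaloisField 2 (k + 1)) = 2 ^ (k + 1) := by
    rw [← Nat.card_eq_fintype_card, GaloisField.card 2 (k + 1) (Nat.succ_ne_zero k)]
  let e : (Fin (k + 1) → Bool) ≃ GaloisField 2 (k + 1) := Fintype.equivOfCardEq (by
    rw [hF, Fintype.card_fun, Fintype.card_bool, Fintype.card_fin])
  obtain ⟨s, D, hs, hacc, hread⟩ := program (n * (k + 1)) (k + 1) (Nat.succ_pos k)
    (vr n k hn0) (fun w => stp k (e w)) ((0 : GaloisField 2 (k + 1)), (0 : GaloisField 2 (k + 1)))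
    (fun p => decide (p.1 + p.2 ≠ 0)) (fun w x => rn hn0 (e w) x) (fun _ _ => rfl)
    (fun _ _ _ => rfl)
  have hacc' : ∀ (z : Item n k → Bool) (w : Fin (k + 1) → Bool),
      D.Accepts (Sum.elim z w) ↔ evl z (e w) ≠ 0 := by
    intro z w
    rw [hacc, decide_eq_true_iff, rn_evl]
  refine ⟨k + 1, s, D, by rw [pow_succ]; omega, ?_, ?_, ?_, ?_⟩
  · refine hs.trans ?_
    rw [Fintype.card_prod, hF]
    exact size_le hs1 hs2
  · intro z w h
    by_contra h'
    exact (hacc' z w).1 h ((poly (GaloisField 2 (k + 1)) hF z).1 h' _)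
  · intro z hz
    have h := (poly (GaloisField 2 (k + 1)) hF z).2 hz
    have h2 : (univ.filter fun w : Fin (k + 1) → Bool => D.Accepts (Sum.elim z w)).card =
        (univ.filter fun ρ : GaloisField 2 (k + 1) => evl z ρ ≠ 0).card := by
      refine card_bij (fun w _ => e w) ?_ (fun _ _ _ _ h => e.injective h) ?_
      · intro w hw
        exact mem_filter.2 ⟨mem_univ _, (hacc' z w).1 (mem_filter.1 hw).2⟩
      · intro ρ hρ
        refine ⟨e.symm ρ, mem_filter.2 ⟨mem_univ _, (hacc' z _).2 ?_⟩, e.apply_symm_apply ρ⟩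
        rw [e.apply_symm_apply]
        exact (mem_filter.1 hρ).2
    rw [h2, pow_succ]
    omega
  · intro L hL v
    have h := hread L hL v
    have h2 : ((List.range (n * (k + 1))).filter fun t => vr n k hn0 t = v).length ≤ 1 := by
      have hnd : ((List.range (n * (k + 1))).filter fun t => vr n k hn0 t = v).Nodup :=
        List.nodup_range.filter _
      rw [← List.toFinset_card_of_nodup hnd, card_le_one]
      intro a ha b hb
      rw [List.mem_toFinset, List.mem_filter, List.mem_range, decide_eq_true_iff] at ha hb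
      exact vr_inj hn0 ha.1 hb.1 (ha.2.trans hb.2.symm)
    refine le_trans (le_of_eq ?_) (h.trans (le_trans (le_of_eq ?_) h2))
    · rw [← List.countP_eq_length_filter]
      unfold List.count
      refine List.countP_congr fun y _ => ?_
      rcases y with y | y
      · rcases y with y | y <;> rcases v with v | v
        · show ((y == v) = true) ↔ _
          simp
        · show (false = true) ↔ _
          simp
        · show (false = true) ↔ _
          simp
        · show ((y == v) = true) ↔ _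
          simp
      · show (false = true) ↔ _
        simp
    · congr 1

open Classical in
theorem upper' : ∃ n₀ : ℕ, ∀ n ≥ n₀, ∃ (r s : ℕ) (D : Circuit (Item n (Nat.clog 2 n) ⊕ Fin r) s),
    2 ^ r ≤ 4 * n ∧ s ≤ n ^ 5 ∧
      (∀ (z : Item n (Nat.clog 2 n) → Bool) (w : Fin r → Bool),
        D.Accepts (Sum.elim z w) → OddLabel z) ∧
      (∀ z : Item n (Nat.clog 2 n) → Bool, OddLabel z →
        2 ^ r ≤ 2 * (univ.filter fun w : Fin r → Bool => D.Accepts (Sum.elim z w)).card) ∧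
      ∀ L, Tree D D.out L → ∀ v : Item n (Nat.clog 2 n), L.count (Sum.inl v) ≤ 1 :=
  ⟨2 ^ 15, fun _ hn => upperE hn⟩

open Classical in
theorem upper : ∃ n₀ : ℕ, ∀ n ≥ n₀, ∃ (r s : ℕ) (D : Circuit (Item n (Nat.clog 2 n) ⊕ Fin r) s),
    s ≤ n ^ 5 ∧
      (∀ (z : Item n (Nat.clog 2 n) → Bool) (w : Fin r → Bool),
        D.Accepts (Sum.elim z w) → OddLabel z) ∧
      (∀ z : Item n (Nat.clog 2 n) → Bool, OddLabel z →
        2 ^ r ≤ 2 * (univ.filter fun w : Fin r → Bool => D.Accepts (Sum.elim z w)).card) ∧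
      ∀ L, Tree D D.out L → ∀ v : Item n (Nat.clog 2 n), L.count (Sum.inl v) ≤ 1 := by
  obtain ⟨n₀, h⟩ := upper'
  exact ⟨n₀, fun n hn => by
    obtain ⟨r, s, D, -, h2⟩ := h n hn
    exact ⟨r, s, D, h2⟩⟩

end Pool.Agent.RO
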