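import Mathlib
import Pool.Agent.Lib.MP_0a1b52_lc_RT.Once
import Pool.Agent.Lib.MP_b573ec_lc_RO.Upper
import Pool.Agent.Lib.MP_b573ec_lc_RO.Ex

/-!
# Labels which occur an odd number of times: deterministic circuits which read few items once
-/

set_option autoImplicit false

namespace Pool.Agent.RO

open Finset Pool.Agent.FP Pool.Agent.RT

private theorem count_item' {n k : ℕ} (i : Fin n) (L : List (Item n k)) :
    @List.count (Item n k) instBEqOfDecidableEq (Sum.inl i) L = L.count (Sum.inl i) := by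
  unfold List.count
  refine List.countP_congr fun v _ => ?_
  rcases v with v | v
  · show (decide (Sum.inl v = (Sum.inl i : Item n k)) = true) ↔ ((v == i) = true)
    simp
  · show (decide (Sum.inr v = (Sum.inl i : Item n k)) = true) ↔ (false = true)
    simp

/-- **Circuits without error**: a factor `2 ^ |E|`. -/
theorem sharpE {n : ℕ} (hn : 2 ^ 15 ≤ n) (E : Finset (Fin n)) :
    ∃ (s : ℕ) (D : Circuit (Item n (Nat.clog 2 n)) s), s ≤ 2 ^ E.card * n ^ 7 ∧
      (∀ z, D.Accepts z ↔ OddLabel z) ∧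
      ∀ i ∈ E, ∀ L, Tree D D.out L → L.count (Sum.inl i) ≤ 1 := by
  have hn5 : 5 ≤ n := le_trans (by norm_num) hn
  obtain ⟨r, s, D, hr, hs, h0, h1, -⟩ := upperE hn
  have hk : 0 < Nat.clog 2 n := Nat.clog_pos (by norm_num) (by omega)
  let u : Item n (Nat.clog 2 n) := Sum.inr (⟨0, by omega⟩, ⟨0, hk⟩)
  obtain ⟨s₁, D₁, hs₁, hD₁⟩ := exists_circuit D u
  have hu : u ∉ E.map ⟨(Sum.inl : Fin n → Item n (Nat.clog 2 n)), Sum.inl_injective⟩ := by
    simp [u]
  obtain ⟨s₂, D₂, hs₂, hD₂, hread⟩ := @once (Item n (Nat.clog 2 n)) s₁ _ instBEqOfDecidableEq _ D₁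
    (E.map ⟨(Sum.inl : Fin n → Item n (Nat.clog 2 n)), Sum.inl_injective⟩) u hu
  refine ⟨s₂, D₂, ?_, ?_, ?_⟩
  · rw [card_map] at hs₂
    refine hs₂.trans (Nat.mul_le_mul_left _ ?_)
    have hE : E.card ≤ n := by simpa using card_le_univ E
    have h3 : s₁ ≤ 4 * n * (n ^ 5 + 5) :=
      hs₁.trans (Nat.mul_le_mul hr (by omega))
    have h4 : n ^ 7 = n * (n ^ 6) := by ring
    have h5 : 5 * n ^ 6 ≤ n ^ 7 := by
      rw [h4]
      exact Nat.mul_le_mul_right _ hn5
    have h6 : n * 22 + 5 ≤ n ^ 6 := by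
      have h7 : n ^ 6 = n * n ^ 5 := by ring
      have h8 : 23 ≤ n ^ 5 := by
        calc 23 ≤ 5 ^ 5 := by norm_num
          _ ≤ n ^ 5 := Nat.pow_le_pow_left hn5 5
      have h9 : n * 23 ≤ n * n ^ 5 := Nat.mul_le_mul_left _ h8
      omega
    have h10 : 4 * n * (n ^ 5 + 5) = 4 * n ^ 6 + 20 * n := by ring
    omega
  · intro z
    rw [hD₂, hD₁]
    constructor
    · rintro ⟨w, hw⟩
      exact h0 z w hw
    · intro hz
      classical
      have h3 := h1 z hz
      have h4 : 0 < (univ.filter fun w : Fin r → Bool => D.Accepts (Sum.elim z w)).card := by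
        have : 0 < 2 ^ r := by positivity
        omega
      obtain ⟨w, hw⟩ := card_pos.1 h4
      exact ⟨w, (mem_filter.1 hw).2⟩
  · intro i hi L hL
    rw [← count_item']
    exact hread (Sum.inl i) (mem_map_of_mem _ hi) L hL

/-- **Circuits without error**: a factor `2 ^ |E|`. -/
theorem sharp : ∃ n₀ : ℕ, ∀ n ≥ n₀, ∀ E : Finset (Fin n),
    ∃ (s : ℕ) (D : Circuit (Item n (Nat.clog 2 n)) s), s ≤ 2 ^ E.card * n ^ 7 ∧
      (∀ z, D.Accepts z ↔ OddLabel z) ∧
      ∀ i ∈ E, ∀ L, Tree D D.out L → L.count (Sum.inl i) ≤ 1 :=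
  ⟨2 ^ 15, fun _ hn => sharpE hn⟩

end Pool.Agent.RO
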